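import Pool.Agent.ExtSum.Hom
import Pool.Agent.ExtSum.Pres

/-! Homomorphisms of torsion-free groups lift if they lift elementwise to elements killed by a
fixed integer. -/

set_option autoImplicit false

namespace Pool.Agent.ExtCmp

open Pool.Agent.ExtSum

/-- Division of homomorphisms of torsion-free groups. -/
theorem div_hom {F E : Type} [AddCommGroup F] [AddCommGroup E] (hE : Dvb E)
    (htf : ∀ n : ℕ, n ≠ 0 → ∀ x : F, n • x = 0 → x = 0) (k : ℕ) (hk : k ≠ 0) (g : F →+ E) :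
    ∃ h : F →+ E, ∀ x, k • h x = g x := by
  obtain ⟨h, hh⟩ := fact hE (k • AddMonoidHom.id F) g (by
    intro a ha
    have : k • a = 0 := ha
    rw [htf k hk a this, map_zero])
  refine ⟨h, fun x => ?_⟩
  rw [← map_nsmul]
  exact hh x

/-- Bounded lifting. -/
theorem bounded_lift {F B W : Type} [AddCommGroup F] [AddCommGroup B] [AddCommGroup W]
    (htf : ∀ n : ℕ, n ≠ 0 → ∀ x : F, n • x = 0 → x = 0) (q : B →+ W) (k : ℕ) (hk : k ≠ 0)
    (φ : F →+ W) (h : ∀ x, ∃ m : B, k • m = 0 ∧ q m = φ x) :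
    ∃ g : F →+ B, ∀ x, q (g x) = φ x ∧ k • g x = 0 := by
  obtain ⟨E, _, i, hi, hE, -⟩ := hull B
  choose m hm1 hm2 using h
  let M : AddSubgroup B := (k • AddMonoidHom.id B).ker ⊓ q.ker
  have hM : ∀ b, b ∈ M ↔ k • b = 0 ∧ q b = 0 := fun b => Iff.rfl
  let K : AddSubgroup E := M.map i
  let ρ : E →+ E ⧸ K := QuotientAddGroup.mk' K
  have hρs : Function.Surjective ρ := QuotientAddGroup.mk'_surjective K
  have hρ : ∀ e, ρ e = 0 ↔ e ∈ K := fun e => QuotientAddGroup.eq_zero_iff e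
  have hdQ : Dvb (E ⧸ K) := by
    intro n hn x
    obtain ⟨e, rfl⟩ := hρs x
    obtain ⟨y, rfl⟩ := hE n hn e
    exact ⟨ρ y, (map_nsmul ρ n y).symm⟩
  let ψ₀ : F →+ E ⧸ K := AddMonoidHom.mk' (fun x => ρ (i (m x))) (by
    intro x y
    rw [← map_add, ← map_add, ← sub_eq_zero, ← map_sub, ← map_sub, hρ]
    refine ⟨_, (hM _).2 ⟨?_, ?_⟩, rfl⟩
    · rw [smul_sub, smul_add, hm1, hm1, hm1, add_zero, sub_zero]
    · rw [map_sub, map_add, hm2, hm2, hm2, map_add, sub_self])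
  obtain ⟨ψ, hψ⟩ := div_hom hdQ htf k hk ψ₀
  let μ : E ⧸ K →+ E := QuotientAddGroup.lift K (k • AddMonoidHom.id E) (by
    rintro _ ⟨b, hb, rfl⟩
    show k • i b = 0
    rw [← map_nsmul, ((hM b).1 hb).1, map_zero])
  have hμ : ∀ e, μ (ρ e) = k • e := fun e => rfl
  have hg : ∀ x, ∃ b : B, i b = μ (ψ x) ∧ q b = φ x ∧ k • b = 0 := by
    intro x
    obtain ⟨e, he⟩ := hρs (ψ x)
    have h1 : ρ (k • e - i (m x)) = 0 := by
      rw [map_sub, map_nsmul, he, hψ]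
      exact sub_self _
    obtain ⟨b, hb, hbe⟩ := (hρ _).1 h1
    obtain ⟨hb1, hb2⟩ := (hM b).1 hb
    refine ⟨b + m x, ?_, ?_, ?_⟩
    · rw [map_add, hbe, ← he, hμ, sub_add_cancel]
    · rw [map_add, hb2, hm2, zero_add]
    · rw [smul_add, hb1, hm1, add_zero]
  choose g hg1 hg2 hg3 using hg
  refine ⟨AddMonoidHom.mk' g (by
    intro x y
    apply hi
    rw [map_add, hg1, hg1, hg1, map_add, map_add]), fun x => ⟨hg2 x, hg3 x⟩⟩

end Pool.Agent.ExtCmp
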