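import Pool.Agent.ExtCmp.Family
import Pool.Agent.ExtCnt.Socle

/-! From homomorphisms `F → B/pB` to homomorphisms `F → D/B` killed by `p`, `B ≤ D`, `D`
divisible. -/

set_option autoImplicit false

namespace Pool.Agent.ExtCmp

open Pool.Agent.ExtSum Pool.Agent.ExtCnt

section
variable {D C : Type} [AddCommGroup D] [AddCommGroup C]

theorem H1_of {π : D →+ C} (hD : Dvb D) {p : ℕ} (hp : p.Prime)
    (S4 : ∀ c : C, p • c = 0 → ∃ (d : D) (k : ℕ), p ^ k • d = 0 ∧ π d = c) : H1 π.ker p := by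
  rintro ⟨b, hb⟩
  obtain ⟨e, rfl⟩ := hD p hp.ne_zero b
  have hc : p • π e = 0 := by rw [← map_nsmul]; exact hb
  obtain ⟨d, k, hk, hd⟩ := S4 _ hc
  refine ⟨⟨p • d, ?_⟩, ⟨e - d, ?_⟩, k, ?_, ?_⟩
  · rw [AddMonoidHom.mem_ker, map_nsmul, hd, hc]
  · rw [AddMonoidHom.mem_ker, map_sub, hd, sub_self]
  · apply Subtype.ext
    show p ^ k • p • d = 0
    rw [smul_comm, hk, smul_zero]
  · apply Subtype.ext
    show p • e = p • d + p • (e - d)
    rw [smul_sub]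
    abel

/-- `pB` -/
def pB (B : Type) [AddCommGroup B] (p : ℕ) : AddSubgroup B := (p • AddMonoidHom.id B).range

theorem exists_kap {π : D →+ C} (hD : Dvb D) (hπ : Function.Surjective π) {p : ℕ}
    (hp : p.Prime) {W : Type} [AddCommGroup W] (q : π.ker →+ W) (hq : Function.Surjective q)
    (hker : ∀ b, q b = 0 ↔ ∃ b', b = p • b') :
    ∃ κ : Sok C p →+ W, (∀ (d : D) (h : p • π d = 0) (h' : p • d ∈ π.ker),
      κ ⟨π d, h⟩ = q ⟨p • d, h'⟩) ∧ Function.Surjective κ ∧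
      ∀ c : Sok C p, κ c = 0 → ∃ m : D, p • m = 0 ∧ π m = c := by
  have hm : ∀ c : Sok C p, ∃ d : D, π d = c ∧ p • d ∈ π.ker := by
    rintro ⟨c, hc⟩
    obtain ⟨d, rfl⟩ := hπ c
    exact ⟨d, rfl, by rw [AddMonoidHom.mem_ker, map_nsmul]; exact hc⟩
  choose d hd1 hd2 using hm
  have key : ∀ (e e' : D) (h : p • e ∈ π.ker) (h' : p • e' ∈ π.ker), π e = π e' →
      q ⟨p • e, h⟩ = q ⟨p • e', h'⟩ := by
    intro e e' h h' hee
    rw [← sub_eq_zero, ← map_sub, hker]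
    refine ⟨⟨e - e', by rw [AddMonoidHom.mem_ker, map_sub, hee, sub_self]⟩, Subtype.ext ?_⟩
    show p • e - p • e' = p • (e - e')
    rw [smul_sub]
  let κ : Sok C p →+ W := AddMonoidHom.mk' (fun c => q ⟨p • d c, hd2 c⟩) (by
    intro a b
    rw [← map_add]
    have h2 : p • (d a + d b) ∈ π.ker := by
      rw [smul_add]
      exact add_mem (hd2 a) (hd2 b)
    rw [key (d (a + b)) (d a + d b) (hd2 _) h2 (by
      rw [hd1, map_add, hd1, hd1]
      rfl)]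
    congr 1
    apply Subtype.ext
    exact smul_add _ _ _)
  have hκ : ∀ (e : D) (h : p • π e = 0) (h' : p • e ∈ π.ker), κ ⟨π e, h⟩ = q ⟨p • e, h'⟩ :=
    fun e h h' => key _ _ _ _ (hd1 ⟨π e, h⟩)
  refine ⟨κ, hκ, ?_, ?_⟩
  · intro w
    obtain ⟨⟨b, hb⟩, rfl⟩ := hq w
    obtain ⟨e, rfl⟩ := hD p hp.ne_zero b
    have hc : p • π e = 0 := by rw [← map_nsmul]; exact hb
    exact ⟨⟨π e, hc⟩, hκ e hc hb⟩
  · intro c hc
    obtain ⟨⟨b, hb⟩, hb'⟩ := (hker _).1 hc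
    have h3 : p • d c = p • b := congrArg Subtype.val hb'
    refine ⟨d c - b, ?_, ?_⟩
    · rw [smul_sub, h3, sub_self]
    · rw [map_sub, hd1, (AddMonoidHom.mem_ker).1 hb, sub_zero]

/-- If some `f : F → C` with `p f = 0` does not lift to `D` then there are uncountably many, no two
of them with a difference that lifts. -/
theorem fam {F : Type} [AddCommGroup F] {π : D →+ C} (hD : Dvb D)
    (hπ : Function.Surjective π) {p : ℕ} (hp : p.Prime)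
    (htf : ∀ n : ℕ, n ≠ 0 → ∀ x : F, n • x = 0 → x = 0)
    (S4 : ∀ c : C, p • c = 0 → ∃ (d : D) (k : ℕ), p ^ k • d = 0 ∧ π d = c)
    (hW : ∃ s : ℕ → π.ker, ∀ x, ∃ (n : ℕ) (y : π.ker), x = s n + p • y)
    (hy : ∃ y : ℕ → π.ker, ∀ x, ∃ (j k : ℕ), k ≠ 0 ∧ k • (x - y j) = 0)
    (hno : ¬ ∀ f : F →+ C, (∀ x, p • f x = 0) → ∃ h : F →+ D, ∀ x, π (h x) = f x) :
    ∃ f : (ℕ → Bool) → (F →+ C), (∀ ε x, p • f ε x = 0) ∧ ∀ ε ε', ε ≠ ε' →
      ¬ ∃ g : F →+ D, ∀ x, π (g x) = f ε x - f ε' x := by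
  let q : π.ker →+ π.ker ⧸ pB π.ker p := QuotientAddGroup.mk' _
  have hq : Function.Surjective q := QuotientAddGroup.mk'_surjective _
  have hker : ∀ b, q b = 0 ↔ ∃ b', b = p • b' := by
    intro b
    have h1 : q b = 0 ↔ b ∈ pB π.ker p := QuotientAddGroup.eq_zero_iff b
    rw [h1]
    exact ⟨fun ⟨b', hb'⟩ => ⟨b', hb'.symm⟩, fun ⟨b', hb'⟩ => ⟨b', hb'.symm⟩⟩
  obtain ⟨κ, hκ1, hκ2, hκ3⟩ := exists_kap hD hπ hp q hq hker
  obtain ⟨φ, hφ⟩ : ∃ φ : F →+ π.ker ⧸ pB π.ker p, ¬ ∃ g : F →+ π.ker, ∀ x, q (g x) = φ x := by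
    by_contra hcon
    push Not at hcon
    apply hno
    intro f hf
    let f' : F →+ Sok C p := f.codRestrict (Sok C p) hf
    obtain ⟨g, hg⟩ := hcon (κ.comp f')
    obtain ⟨h₀, hh₀⟩ := div_hom hD htf p hp.ne_zero (π.ker.subtype.comp g)
    have hh₀' : ∀ x, p • h₀ x = (g x : D) := hh₀
    have hj : ∀ x, p • (f x - π (h₀ x)) = 0 := by
      intro x
      rw [smul_sub, hf, ← map_nsmul, hh₀', (AddMonoidHom.mem_ker).1 (g x).2, sub_zero]
    obtain ⟨g', hg'⟩ := bounded_lift htf π p hp.ne_zero (f - π.comp h₀) (by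
      intro x
      have hπh : p • π (h₀ x) = 0 := by
        rw [← map_nsmul, hh₀']
        exact (g x).2
      have hpk : p • h₀ x ∈ π.ker := by rw [hh₀']; exact (g x).2
      have h4 : κ (f' x - ⟨π (h₀ x), hπh⟩) = 0 := by
        rw [map_sub, hκ1 (h₀ x) hπh hpk]
        have h5 : (⟨p • h₀ x, hpk⟩ : π.ker) = g x := Subtype.ext (hh₀' x)
        rw [h5, hg x]
        exact sub_self _
      obtain ⟨m, hm1, hm2⟩ := hκ3 _ h4
      exact ⟨m, hm1, hm2⟩)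
    refine ⟨h₀ + g', fun x => ?_⟩
    have h6 : π (g' x) = f x - π (h₀ x) := (hg' x).1
    rw [AddMonoidHom.add_apply, map_add, h6]
    abel
  obtain ⟨Φ, hΦ⟩ := family hp htf q hq hker (H1_of hD hp S4) hW hy φ hφ
  have hl := fun ε => bounded_lift htf κ p hp.ne_zero (Φ ε) (by
    intro x
    obtain ⟨c, hc⟩ := hκ2 (Φ ε x)
    exact ⟨c, Subtype.ext c.2, hc⟩)
  choose f hf using hl
  refine ⟨fun ε => (Sok C p).subtype.comp (f ε), fun ε x => (f ε x).2, fun ε ε' hne => ?_⟩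
  rintro ⟨g, hg⟩
  apply hΦ ε ε' hne
  have hg' : ∀ x, π (g x) = ((f ε x - f ε' x : Sok C p) : C) := hg
  have hgp : ∀ x, p • π (g x) = 0 := by
    intro x
    rw [hg']
    exact (f ε x - f ε' x).2
  have hgk : ∀ x, (p • g) x ∈ π.ker := by
    intro x
    show π (p • g x) = 0
    rw [map_nsmul, hgp]
  refine ⟨(p • g).codRestrict π.ker hgk, fun x => ?_⟩
  have h7 := hκ1 (g x) (hgp x) (hgk x)
  have h8 : (⟨π (g x), hgp x⟩ : Sok C p) = f ε x - f ε' x := Subtype.ext (hg' x)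
  rw [h8, map_sub, (hf ε x).1, (hf ε' x).1] at h7
  exact h7.symm

end

end Pool.Agent.ExtCmp
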