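import Pool.Agent.ExtCmp.Step

/-! Dual systems. -/

set_option autoImplicit false

namespace Pool.Agent.ExtCmp

open Pool.Agent.ExtSum Pool.Agent.ExtCnt Finset

/-- Cyclic subgroups `⟨u i⟩` of order `p ^ n i` with orthogonal projections `P i` onto them, which
generate the group modulo `p`. -/
structure Sys (B : Type) [AddCommGroup B] (p : ℕ) where
  u : ℕ → B
  n : ℕ → ℕ
  P : ℕ → (B →+ B)
  tor : ∀ i, p ^ n i • u i = 0
  ord : ∀ i (a : ℤ), a • u i = 0 → ((p ^ n i : ℕ) : ℤ) ∣ a
  cyc : ∀ i y, ∃ a : ℤ, P i y = a • u i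
  fix : ∀ i, P i (u i) = u i
  orth : ∀ i j, i ≠ j → P i (u j) = 0
  gen : ∀ x, ∃ (N : ℕ) (y : B), x = ∑ i ∈ range N, P i x + p • y

variable {B : Type} [AddCommGroup B]

theorem exists_sys {p : ℕ} (hp : p.Prime) (h1 : H1 B p) (s : ℕ → B)
    (hs : ∀ x, ∃ (n : ℕ) (y : B), x = s n + p • y) : Nonempty (Sys B p) := by
  classical
  have hstep := fun (R : {R : B →+ B // ∀ x, R (R x) = R x}) (x : B) => step hp R.1 R.2 h1 x
  choose u n P c1 c2 c3 c4 c5 c6 c7 using hstep
  -- the next projection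
  have hnext : ∀ (R : {R : B →+ B // ∀ x, R (R x) = R x}) (x : B),
      ∀ y, (R.1 - P R x) ((R.1 - P R x) y) = (R.1 - P R x) y := by
    intro R x y
    have hRP : ∀ y, R.1 (P R x y) = P R x y := by
      intro y
      obtain ⟨a, ha⟩ := c4 R x y
      rw [ha, map_zsmul, c1]
    have hPP : ∀ y, P R x (P R x y) = P R x y := by
      intro y
      obtain ⟨a, ha⟩ := c4 R x y
      rw [ha, map_zsmul, c6]
    simp only [AddMonoidHom.sub_apply, map_sub, R.2, hRP, hPP, c5]
    abel
  let st : ℕ → {R : B →+ B // ∀ x, R (R x) = R x} := fun i =>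
    Nat.rec ⟨AddMonoidHom.id B, fun _ => rfl⟩ (fun i R => ⟨R.1 - P R (s i), hnext R (s i)⟩) i
  have hst0 : (st 0).1 = AddMonoidHom.id B := rfl
  have hsts : ∀ i y, (st (i + 1)).1 y = (st i).1 y - P (st i) (s i) y := fun i y => rfl
  set U : ℕ → B := fun i => u (st i) (s i) with hU
  set Q : ℕ → (B →+ B) := fun i => P (st i) (s i) with hQ
  have d1 : ∀ i, (st i).1 (U i) = U i := fun i => c1 _ _
  have d4 : ∀ i y, ∃ a : ℤ, Q i y = a • U i := fun i y => c4 _ _ y
  have d5 : ∀ i y, Q i ((st i).1 y) = Q i y := fun i y => c5 _ _ y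
  have d6 : ∀ i, Q i (U i) = U i := fun i => c6 _ _
  have d7 : ∀ i, ∃ y, (st i).1 (s i) = Q i (s i) + p • y := fun i => c7 _ _
  have hstQ : ∀ i y, (st (i + 1)).1 y = (st i).1 y - Q i y := hsts
  -- the later projections kill the earlier generators
  have e1 : ∀ j k, (st (j + 1 + k)).1 (U j) = 0 := by
    intro j k
    induction k with
    | zero => rw [add_zero, hstQ, d1, d6, sub_self]
    | succ k ih =>
      rw [← add_assoc, hstQ, ih, zero_sub, ← d5, ih, map_zero, neg_zero]
  -- the earlier projections kill the later complements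
  have e2 : ∀ i k y, Q i ((st (i + 1 + k)).1 y) = 0 := by
    intro i k
    induction k with
    | zero =>
      intro y
      obtain ⟨a, ha⟩ := d4 i y
      rw [add_zero, hstQ, map_sub, d5, ha, map_zsmul, d6, sub_self]
    | succ k ih =>
      intro y
      obtain ⟨a, ha⟩ := d4 (i + 1 + k) y
      rw [← add_assoc, hstQ, map_sub, ih, ha, map_zsmul, ← d1 (i + 1 + k), ih, smul_zero,
        sub_zero]
  have e3 : ∀ N y, y = ∑ i ∈ range N, Q i y + (st N).1 y := by
    intro N y
    induction N with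
    | zero =>
      rw [range_zero, sum_empty, zero_add]
      exact (DFunLike.congr_fun hst0 y).symm
    | succ N ih =>
      rw [sum_range_succ, hstQ]
      nth_rewrite 1 [ih]
      abel
  refine ⟨⟨U, fun i => n (st i) (s i), Q, fun i => c2 _ _, fun i a ha => c3 _ _ a ha, d4, d6,
    ?_, ?_⟩⟩
  · intro i j hij
    rcases lt_or_gt_of_ne hij with h | h
    · obtain ⟨k, rfl⟩ := Nat.exists_eq_add_of_le (Nat.succ_le_of_lt h)
      rw [← d1]
      exact e2 i k _
    · obtain ⟨k, rfl⟩ := Nat.exists_eq_add_of_le (Nat.succ_le_of_lt h)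
      rw [← d5]
      have := e1 j k
      rw [show (j.succ + k) = j + 1 + k from rfl, this, map_zero]
  · intro x
    obtain ⟨i, y, hxy⟩ := hs x
    obtain ⟨z, hz⟩ := d7 i
    have h3 : (st (i + 1)).1 x = p • (z + (st (i + 1)).1 y) := by
      rw [smul_add]
      conv_lhs => rw [hxy, map_add, map_nsmul, hstQ, hz]
      abel
    refine ⟨i + 1, z + (st (i + 1)).1 y, ?_⟩
    rw [← h3]
    exact e3 (i + 1) x

end Pool.Agent.ExtCmp
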