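import Pool.Agent.ExtCmp.Conv
import Pool.Agent.ExtCnt.MainC

/-! Homomorphisms of the torsion subgroup to a reduced group. -/

set_option autoImplicit false

namespace Pool.Agent.ExtCmp

open Pool.Agent.ExtSum Pool.Agent.ExtCnt

/-- a reduced group which is divisible by a prime `l` has no element of order `l` -/
theorem tor_div_zero {B : Type} [AddCommGroup B] (hred : Red B) {l : ℕ} (hl : l.Prime)
    (hdiv : ∀ b : B, ∃ b', b = l • b') (b : B) (hb : l • b = 0) : b = 0 := by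
  have hS : Tp B l = ⊥ := by
    apply hred
    rintro n hn x ⟨k, hk⟩
    obtain ⟨a, m, hm, rfl⟩ := Nat.exists_eq_pow_mul_and_not_dvd hn l hl.one_lt.ne'
    have hda : ∀ a : ℕ, ∀ x ∈ Tp B l, ∃ y ∈ Tp B l, l ^ a • y = x := by
      intro a
      induction a with
      | zero => exact fun x hx => ⟨x, hx, by rw [pow_zero, one_smul]⟩
      | succ a ih =>
        intro x hx
        obtain ⟨y, ⟨j, hj⟩, rfl⟩ := ih x hx
        obtain ⟨z, rfl⟩ := hdiv y
        refine ⟨z, ⟨j + 1, by rw [pow_succ, mul_smul, hj]⟩, by rw [pow_succ, mul_smul]⟩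
    obtain ⟨y, ⟨j, hj⟩, hy⟩ := hda a x ⟨k, hk⟩
    have hcop : m.Coprime (l ^ j) :=
      Nat.Coprime.pow_right j ((Nat.Prime.coprime_iff_not_dvd hl).2 hm).symm
    obtain ⟨r, s, hrs⟩ := Nat.isCoprime_iff_coprime.2 hcop
    have h5 : m • r • y = y := by
      have h6 : (r * (m : ℤ) + s * ((l ^ j : ℕ) : ℤ)) • y = y := by rw [hrs, one_smul]
      rw [add_smul, mul_smul, mul_smul, natCast_zsmul, natCast_zsmul, hj, smul_zero,
        add_zero, smul_comm] at h6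
      exact h6
    exact ⟨r • y, (Tp B l).zsmul_mem ⟨j, hj⟩ r, by rw [mul_smul, h5, hy]⟩
  have h1 : b ∈ Tp B l := ⟨1, by rw [pow_one, hb]⟩
  rwa [hS, AddSubgroup.mem_bot] at h1

section
variable {D C A : Type} [AddCommGroup D] [AddCommGroup C] [AddCommGroup A]

/-- If `Ext(A,B)` is divisible by `l` and `A` has an element of order `l` then `B` is divisible by
`l`. -/
theorem pdiv {π : D →+ C} (hD : Dvb D) (hC : Dvb C) {l : ℕ} (hl : l.Prime)
    (hG : ∀ f : A →+ C, ∃ (f' : A →+ C) (g : A →+ D), ∀ x, f x = l • f' x + π (g x)) {t : A}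
    (ht0 : t ≠ 0) (ht : l • t = 0) (b : π.ker) : ∃ b' : π.ker, b = l • b' := by
  obtain ⟨b, hb⟩ := b
  obtain ⟨e, rfl⟩ := hD l hl.ne_zero b
  have hc : l • π e = 0 := by rw [← map_nsmul]; exact hb
  obtain ⟨f, hf⟩ := fact hC (zmultiplesHom A t) (zmultiplesHom C (π e)) (by
    intro n hn
    exact zsmul_of_dvd hc (dvd_of_zsmul hl ht0 ht hn))
  have hft : f t = π e := by
    have := hf 1
    simpa using this
  obtain ⟨f', g, h⟩ := hG f
  have h1 := h t
  rw [hft, ← map_nsmul, ht, map_zero, zero_add] at h1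
  refine ⟨⟨e - g t, by rw [AddMonoidHom.mem_ker, map_sub, h1, sub_self]⟩, Subtype.ext ?_⟩
  show l • e = l • (e - g t)
  rw [smul_sub, ← map_nsmul, ht, map_zero, sub_zero]

theorem Tq_le (p : ℕ) (hp : p.Prime) : Tq A p ≤ AddCommGroup.torsion A := by
  rintro t ⟨m, hm, hmt⟩
  show IsOfFinAddOrder t
  rw [isOfFinAddOrder_iff_nsmul_eq_zero]
  refine ⟨m, Nat.pos_of_ne_zero ?_, hmt⟩
  rintro rfl
  exact hp.one_lt.ne' ((Nat.coprime_zero_left p).1 hm)

theorem Tp_le (p : ℕ) (hp : p.Prime) : Tp A p ≤ AddCommGroup.torsion A := by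
  rintro t ⟨k, hk⟩
  show IsOfFinAddOrder t
  rw [isOfFinAddOrder_iff_nsmul_eq_zero]
  exact ⟨p ^ k, Nat.pos_of_ne_zero (pow_ne_zero _ hp.ne_zero), hk⟩

/-- the part of order prime to `p` is killed -/
theorem kill_q {π : D →+ C} (hD : Dvb D) (hC : Dvb C) (hred : Red π.ker) {p : ℕ} (hp : p.Prime)
    (hG : ∀ l : ℕ, l.Prime → l ≠ p → ∀ f : A →+ C, ∃ (f' : A →+ C) (g : A →+ D),
      ∀ x, f x = l • f' x + π (g x)) (g : A →+ D)
    (hg : ∀ t ∈ AddCommGroup.torsion A, g t ∈ π.ker) (t : A) (ht : t ∈ Tq A p) : g t = 0 := by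
  by_contra hne
  have htT := Tq_le p hp ht
  obtain ⟨m, hm, hmt⟩ := ht
  have hm0 : m ≠ 0 := by
    rintro rfl
    exact hp.one_lt.ne' ((Nat.coprime_zero_left p).1 hm)
  set r := addOrderOf (g t) with hr
  have hrm : r ∣ m := addOrderOf_dvd_of_nsmul_eq_zero (by rw [← map_nsmul, hmt, map_zero])
  have hr1 : r ≠ 1 := by
    intro h
    exact hne (AddMonoid.addOrderOf_eq_one_iff.1 h)
  obtain ⟨l, hl, hlr⟩ := Nat.exists_prime_and_dvd hr1
  have hlp : l ≠ p := by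
    rintro rfl
    exact (Nat.Prime.coprime_iff_not_dvd hl).1 hm.symm (hlr.trans hrm)
  obtain ⟨r', hr'⟩ := hlr
  have hr'0 : 0 < r' := by
    apply Nat.pos_of_ne_zero
    rintro rfl
    rw [mul_zero] at hr'
    rw [hr'] at hrm
    exact hm0 (Nat.eq_zero_of_zero_dvd hrm)
  -- the element of order `l` of `B`
  have hb0 : r' • g t ≠ 0 := by
    intro h
    have h1 : r ∣ r' := addOrderOf_dvd_of_nsmul_eq_zero h
    have h2 := Nat.le_of_dvd hr'0 h1
    rw [hr'] at h2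
    have h3 := hl.two_le
    nlinarith
  have hbl : l • (r' • g t) = 0 := by
    rw [← mul_smul, ← hr', hr]
    exact addOrderOf_nsmul_eq_zero _
  -- the element of order `l` of `A`
  obtain ⟨s', hs'⟩ : l ∣ addOrderOf t := by
    have h1 : r ∣ addOrderOf t := addOrderOf_dvd_of_nsmul_eq_zero (by
      rw [← map_nsmul, addOrderOf_nsmul_eq_zero, map_zero])
    exact (Dvd.intro _ hr'.symm).trans h1
  have hs0 : 0 < s' := by
    apply Nat.pos_of_ne_zero
    rintro rfl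
    rw [mul_zero] at hs'
    have h1 : addOrderOf t ∣ m := addOrderOf_dvd_of_nsmul_eq_zero hmt
    rw [hs'] at h1
    exact hm0 (Nat.eq_zero_of_zero_dvd h1)
  have ht0 : s' • t ≠ 0 := by
    intro h
    have h1 := addOrderOf_dvd_of_nsmul_eq_zero h
    have h2 := Nat.le_of_dvd hs0 h1
    rw [hs'] at h2
    have h3 := hl.two_le
    nlinarith
  have htl : l • (s' • t) = 0 := by
    rw [← mul_smul, ← hs']
    exact addOrderOf_nsmul_eq_zero _
  have hmem : r' • g t ∈ π.ker := π.ker.nsmul_mem (hg t htT) _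
  have h6 := tor_div_zero hred hl (pdiv hD hC hl (hG l hl hlp) ht0 htl) ⟨r' • g t, hmem⟩
    (Subtype.ext hbl)
  exact hb0 (congrArg Subtype.val h6)

/-- `p ^ N` times the `p`-part is killed -/
theorem kill_p {π : D →+ C} (hred : Red π.ker) {p : ℕ} (hp : p.Prime) {N : ℕ}
    (hN2 : ∀ w : A, (∃ k : ℕ, p ^ k • w = 0) →
      ∃ w', (∃ k : ℕ, p ^ k • w' = 0) ∧ p ^ N • w = p ^ (N + 1) • w') (g₁ : A →+ D)
    (hg₁T : ∀ t ∈ AddCommGroup.torsion A, g₁ t ∈ π.ker) :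
    ∀ w ∈ Tp A p, g₁ (p ^ N • w) = 0 := by
  have hTp := Tp_le (A := A) p hp
  intro w hw
  let S : AddSubgroup π.ker := (((Tp A p).map (p ^ N • AddMonoidHom.id A)).map g₁).comap
    π.ker.subtype
  have hS : S = ⊥ := by
    apply hred
    rintro n hn ⟨x, hx⟩ hxS
    obtain ⟨_, ⟨v, hv, rfl⟩, hvx⟩ : ∃ y ∈ (Tp A p).map (p ^ N • AddMonoidHom.id A), g₁ y = x :=
      hxS
    have hvx : g₁ (p ^ N • v) = x := hvx
    obtain ⟨a, m, hm, rfl⟩ := Nat.exists_eq_pow_mul_and_not_dvd hn p hp.one_lt.ne'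
    have hdiv : ∀ a : ℕ, ∀ v ∈ Tp A p, ∃ v' ∈ Tp A p, p ^ N • v = p ^ a • p ^ N • v' := by
      intro a
      induction a with
      | zero => exact fun v hv => ⟨v, hv, by rw [pow_zero, one_smul]⟩
      | succ a ih =>
        intro v hv
        obtain ⟨v', hv', h4⟩ := ih v hv
        obtain ⟨v'', hv'', h5⟩ := hN2 v' hv'
        refine ⟨v'', hv'', ?_⟩
        rw [h4, h5, pow_succ' p N, mul_smul, ← mul_smul (p ^ a) p, ← pow_succ]
    obtain ⟨v', hv', h4⟩ := hdiv a v hv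
    obtain ⟨k, hk⟩ := hv'
    have hcop : m.Coprime (p ^ k) :=
      Nat.Coprime.pow_right k ((Nat.Prime.coprime_iff_not_dvd hp).2 hm).symm
    obtain ⟨r, s, hrs⟩ := Nat.isCoprime_iff_coprime.2 hcop
    have h5 : m • r • v' = v' := by
      have h6 : (r * (m : ℤ) + s * ((p ^ k : ℕ) : ℤ)) • v' = v' := by rw [hrs, one_smul]
      rw [add_smul, mul_smul, mul_smul, natCast_zsmul, natCast_zsmul, hk, smul_zero,
        add_zero, smul_comm] at h6
      exact h6
    have h7 : r • v' ∈ Tp A p := (Tp A p).zsmul_mem ⟨k, hk⟩ r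
    refine ⟨⟨g₁ (p ^ N • r • v'), ?_⟩, ⟨p ^ N • r • v', ⟨r • v', h7, rfl⟩, rfl⟩, ?_⟩
    · exact hg₁T _ ((AddCommGroup.torsion A).nsmul_mem (hTp h7) _)
    · apply Subtype.ext
      show (p ^ a * m) • g₁ (p ^ N • r • v') = x
      rw [← hvx, h4, mul_smul, ← map_nsmul, ← map_nsmul, smul_comm m (p ^ N), h5]
  have hmem : (⟨g₁ (p ^ N • w), hg₁T _ ((AddCommGroup.torsion A).nsmul_mem (hTp hw) _)⟩ :
      π.ker) ∈ S := ⟨p ^ N • w, ⟨w, hw, rfl⟩, rfl⟩
  rw [hS, AddSubgroup.mem_bot] at hmem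
  exact congrArg Subtype.val hmem

end

end Pool.Agent.ExtCmp
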