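import Pool.Agent.ExtCnt.G1
import Pool.Agent.ExtCnt.G2
import Pool.Agent.ExtSum.Tors
import Pool.Agent.ExtCmp.Kill

/-! Further facts on `Ext(ℤ[1/q], ℤ)` and `Ext(ℤ(p^∞), B)`. -/

set_option autoImplicit false

namespace Pool.Agent.ExtCmp

open Pool.Agent.ExtSum Pool.Agent.ExtCnt

theorem red_of_equiv {G H : Type} [AddCommGroup G] [AddCommGroup H] (e : G ≃+ H) (h : Red H) :
    Red G := by
  intro S hS
  have h1 := h (S.map e.toAddMonoidHom) (by
    rintro n hn _ ⟨x, hx, rfl⟩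
    obtain ⟨y, hy, rfl⟩ := hS n hn x hx
    exact ⟨e y, ⟨y, hy, rfl⟩, (map_nsmul e n y).symm⟩)
  rw [eq_bot_iff]
  intro x hx
  have h2 : e x ∈ S.map e.toAddMonoidHom := ⟨x, hx, rfl⟩
  rw [h1, AddSubgroup.mem_bot] at h2
  rw [AddSubgroup.mem_bot]
  exact (AddEquiv.map_eq_zero_iff e).1 h2

/-- `Ext(ℤ(p^∞), B)` is reduced and divisible by all primes `l ≠ p` -/
theorem G2_more (p : ℕ) (hp : p.Prime) (G B : Type) [AddCommGroup G] [AddCommGroup B]
    (h : IsExtOf G (Pruefer p) B) :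
    Red G ∧ ∀ l : ℕ, l.Prime → l ≠ p → ∀ x : G, ∃ y, x = l • y := by
  obtain ⟨D, C, _, _, π, hπ, hD, hC, hred, ⟨e⟩⟩ := ext_pres h
  have htor : AddCommGroup.torsion (Pruefer p) = ⊤ := by
    rw [eq_top_iff]
    rintro ⟨x, k, hk⟩ -
    show IsOfFinAddOrder _
    rw [isOfFinAddOrder_iff_nsmul_eq_zero]
    exact ⟨p ^ k, Nat.pos_of_ne_zero (pow_ne_zero _ hp.ne_zero), Subtype.ext hk⟩
  constructor
  · apply red_of_equiv e
    have h1 := ext_torsion_reduced (A := Pruefer p) (π := π) hD hC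
    rw [htor] at h1
    exact h1
  · intro l hl hlp x
    obtain ⟨f, hf⟩ := QuotientAddGroup.mk'_surjective _ (e x)
    obtain ⟨f', hf'⟩ := fact hC (l • AddMonoidHom.id (Pruefer p)) f (by
      rintro ⟨a, k, hk⟩ ha
      have ha : l • (⟨a, k, hk⟩ : Pruefer p) = 0 := ha
      have hcop : (p ^ k).Coprime l :=
        Nat.Coprime.pow_left _ ((Nat.coprime_primes hp hl).2 hlp.symm)
      rw [eq_zero_of_coprime hcop (Subtype.ext hk : p ^ k • (⟨a, k, hk⟩ : Pruefer p) = 0) ha,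
        map_zero])
    refine ⟨e.symm (QuotientAddGroup.mk' _ f'), ?_⟩
    apply e.injective
    rw [map_nsmul, e.apply_symm_apply, ← map_nsmul, ← hf]
    congr 1
    ext a
    show f a = l • f' a
    rw [← map_nsmul]
    exact (hf' a).symm

/-- the elements of order `p` of `Ext(ℤ[1/q], ℤ)` form a countable set -/
theorem G1_more (p q : ℕ) (hp : p.Prime) (hq : q.Prime) (hpq : p ≠ q) (G : Type)
    [AddCommGroup G] (h : IsExtOf G (Zinv q) ℤ) : {v : G | p • v = 0}.Countable := by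
  obtain ⟨e⟩ : Nonempty (G ≃+ ((Zinv q →+ QZ) ⧸ Lft qz (⊤ : AddSubgroup (Zinv q)))) :=
    ext_iso h (Int.castAddHom ℚ) (fun a b h => Int.cast_injective h) dvb_Q
  have hone : (1 : ℚ) ∈ Zinv q := ⟨0, 1, by simp⟩
  let one : Zinv q := ⟨1, hone⟩
  -- representatives killed by `p`
  have h1 : ∀ v : {v : G | p • v = 0}, ∃ f : Zinv q →+ QZ, (∀ x, p • f x = 0) ∧
      QuotientAddGroup.mk' (Lft qz (⊤ : AddSubgroup (Zinv q))) f = e v := by
    rintro ⟨v, hv⟩
    have hv : p • v = 0 := hv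
    obtain ⟨f, hf⟩ := QuotientAddGroup.mk'_surjective (Lft qz (⊤ : AddSubgroup (Zinv q))) (e v)
    have h2 : QuotientAddGroup.mk' (Lft qz (⊤ : AddSubgroup (Zinv q))) (p • f) = 0 := by
      rw [map_nsmul, hf, ← map_nsmul, hv, map_zero]
    rw [QuotientAddGroup.mk'_apply, QuotientAddGroup.eq_zero_iff] at h2
    obtain ⟨g, hg⟩ := h2
    obtain ⟨h₀, hh₀⟩ := div_hom dvb_Q (Zinv_tf q) p hp.ne_zero g
    refine ⟨f - qz.comp h₀, fun x => ?_, ?_⟩
    · show p • (f x - qz (h₀ x)) = 0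
      have h3 : qz (g x) = p • f x := hg x trivial
      rw [smul_sub, ← map_nsmul qz, hh₀, h3, sub_self]
    · rw [map_sub, hf]
      have h4 : QuotientAddGroup.mk' (Lft qz (⊤ : AddSubgroup (Zinv q))) (qz.comp h₀) = 0 := by
        rw [QuotientAddGroup.mk'_apply, QuotientAddGroup.eq_zero_iff]
        exact ⟨h₀, fun x _ => rfl⟩
      rw [h4, sub_zero]
  choose f hf1 hf2 using h1
  have hQZ : Countable QZ := qz_surj.countable
  have hinj : Function.Injective fun v : {v : G | p • v = 0} => f v one := by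
    intro v v' hvv
    have hvv : f v one = f v' one := hvv
    have h5 : f v = f v' := by
      ext x
      obtain ⟨x, k, n, hx⟩ := x
      have h6 : q ^ k • (⟨x, k, n, hx⟩ : Zinv q) = n • one := by
        apply Subtype.ext
        show q ^ k • x = n • (1 : ℚ)
        rw [nsmul_eq_mul, zsmul_eq_mul, mul_one, ← hx]
        push_cast
        rfl
      have h7 : q ^ k • (f v ⟨x, k, n, hx⟩ - f v' ⟨x, k, n, hx⟩) = 0 := by
        rw [smul_sub, ← map_nsmul, ← map_nsmul, h6, map_zsmul, map_zsmul, hvv, sub_self]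
      have h8 : p • (f v ⟨x, k, n, hx⟩ - f v' ⟨x, k, n, hx⟩) = 0 := by
        rw [smul_sub, hf1, hf1, sub_self]
      have hcop : (q ^ k).Coprime p := Nat.Coprime.pow_left _ ((Nat.coprime_primes hq hp).2 hpq.symm)
      exact sub_eq_zero.1 (eq_zero_of_coprime hcop h7 h8)
    apply Subtype.ext
    apply e.injective
    rw [← hf2, ← hf2, h5]
  have : Countable {v : G | p • v = 0} := hinj.countable
  exact Set.countable_coe_iff.1 this

end Pool.Agent.ExtCmp
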