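import Pool.Agent.ExtCmp.Ops
import Pool.Agent.ExtCmp.BL

/-! A homomorphism `F → B/pB` that does not lift to `B` gives uncountably many homomorphisms no
two of which have a difference that lifts (`B` of countable torsion-free rank, `B = t_p B + pB`). -/

set_option autoImplicit false

namespace Pool.Agent.ExtCmp

open Pool.Agent.ExtSum Pool.Agent.ExtCnt Finset

theorem dvd_of_growth {p k N i : ℕ} (hp : p.Prime) (hk : k ≠ 0) (hi : k ≤ i) {a : ℤ}
    (h : ((p ^ (N + i) : ℕ) : ℤ) ∣ (k : ℤ) * a) : ((p ^ N : ℕ) : ℤ) ∣ a := by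
  obtain ⟨e, m, hm, hkm⟩ := Nat.exists_eq_pow_mul_and_not_dvd hk p hp.one_lt.ne'
  have hm0 : 0 < m := by
    apply Nat.pos_of_ne_zero
    rintro rfl
    exact hm (dvd_zero _)
  have he : e ≤ k := by
    have h1 : e < p ^ e := Nat.lt_pow_self hp.one_lt
    have h2 : p ^ e ≤ k := by
      rw [hkm]
      exact Nat.le_mul_of_pos_right _ hm0
    omega
  have h1 : ((p ^ (e + N) : ℕ) : ℤ) ∣ ((p ^ e : ℕ) : ℤ) * ((m : ℤ) * a) := by
    have h2 : (k : ℤ) * a = ((p ^ e : ℕ) : ℤ) * ((m : ℤ) * a) := by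
      rw [hkm]
      push_cast
      ring
    rw [← h2]
    refine dvd_trans ?_ h
    exact_mod_cast pow_dvd_pow p (by omega)
  have h2 : ((p ^ N : ℕ) : ℤ) ∣ (m : ℤ) * a := by
    have h3 : ((p ^ (e + N) : ℕ) : ℤ) = ((p ^ e : ℕ) : ℤ) * ((p ^ N : ℕ) : ℤ) := by
      rw [pow_add]
      push_cast
      ring
    rw [h3] at h1
    refine Int.dvd_of_mul_dvd_mul_left ?_ h1
    exact_mod_cast pow_ne_zero e hp.ne_zero
  have hcop : IsCoprime ((p ^ N : ℕ) : ℤ) (m : ℤ) := by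
    rw [Nat.isCoprime_iff_coprime]
    exact Nat.Coprime.pow_left _ ((Nat.Prime.coprime_iff_not_dvd hp).2 hm)
  exact hcop.dvd_of_dvd_mul_left h2

section
variable {B : Type} [AddCommGroup B] {p : ℕ} (S : Sys B p)

theorem Sys.smul_u {i : ℕ} {a : ℤ} (h : ((p ^ S.n i : ℕ) : ℤ) ∣ a) : a • S.u i = 0 := by
  obtain ⟨b, rfl⟩ := h
  rw [mul_comm, mul_smul, natCast_zsmul, S.tor, smul_zero]

/-- compression -/
theorem Sys.exists_c (hp : p.Prime) (y : ℕ → B)
    (hy : ∀ x, ∃ (j k : ℕ), k ≠ 0 ∧ k • (x - y j) = 0) (L : ℕ → ℕ → ℕ)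
    (hL : ∀ j K, ∃ z, ∀ i, L j K ≤ i → S.P i (y j) = p ^ K • S.P i z) (σ : ℕ → ℕ)
    (hσ : Function.Injective σ) (hn : ∀ i, S.n i + i ≤ S.n (σ i))
    (hσL : ∀ i, ∀ j ≤ i, L j (S.n i) ≤ σ i) :
    ∃ c : B →+ B, (∀ i, c (S.u (σ i)) = S.u i) ∧ ∀ m, (∀ i, σ i ≠ m) → c (S.u m) = 0 := by
  have hT := fun i => S.exists_T (σ i) (S.u i) (by
    obtain ⟨d, hd⟩ := Nat.exists_eq_add_of_le (le_trans (Nat.le_add_right _ _) (hn i))
    rw [hd, add_comm, pow_add, mul_smul, S.tor, smul_zero])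
  choose T hT using hT
  have h1 : ∀ j i, j ≤ i → T i (y j) = 0 := by
    intro j i hji
    obtain ⟨z, hz⟩ := hL j (S.n i)
    obtain ⟨a, ha⟩ := S.cyc (σ i) z
    have h2 := hz (σ i) (hσL i j hji)
    rw [ha, ← natCast_zsmul, ← mul_smul] at h2
    rw [hT i _ _ h2]
    exact S.smul_u (dvd_mul_right _ _)
  have h2 : ∀ (t : B) (k : ℕ), k ≠ 0 → k • t = 0 → ∀ i, k ≤ i → T i t = 0 := by
    intro t k hk hkt i hi
    obtain ⟨a, ha⟩ := S.cyc (σ i) t
    rw [hT i t a ha]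
    apply S.smul_u
    refine dvd_of_growth hp hk hi ?_
    have h3 : ((k : ℤ) * a) • S.u (σ i) = 0 := by
      rw [mul_smul, ← ha, natCast_zsmul, ← map_nsmul, hkt, map_zero]
    have h4 := S.ord (σ i) _ h3
    refine dvd_trans ?_ h4
    exact_mod_cast pow_dvd_pow p (hn i)
  obtain ⟨c, hc⟩ := exists_op T (by
    intro x
    obtain ⟨j, k, hk, hx⟩ := hy x
    refine ⟨max j k, fun i hi => ?_⟩
    rw [show x = y j + (x - y j) by abel, map_add, h1 j i (le_trans (le_max_left _ _) hi),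
      h2 _ k hk hx i (le_trans (le_max_right _ _) hi), add_zero])
  have hTu : ∀ i m, σ i ≠ m → T i (S.u m) = 0 := by
    intro i m him
    rw [hT i (S.u m) 0 (by rw [S.orth _ _ him, zero_smul]), zero_smul]
  refine ⟨c, fun i => ?_, fun m hm => ?_⟩
  · rw [hc _ (i + 1) (fun k hk => hTu k _ (fun h => by
      have := hσ h
      omega)), sum_range_succ, sum_eq_zero, zero_add, hT i (S.u (σ i)) 1 (by
        rw [S.fix, one_smul]), one_smul]
    intro k hk
    rw [mem_range] at hk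
    exact hTu k _ (fun h => by
      have := hσ h
      omega)
  · rw [hc _ 0 (fun k _ => hTu k _ (hm k)), range_zero, sum_empty]

/-- stretching -/
theorem Sys.exists_s {W : Type} [AddCommGroup W] (hpW : ∀ w : W, p • w = 0) (w : ℕ → W)
    (hw : ∀ i, S.n i = 0 → w i = 0) :
    ∃ s : B →+ W, ∀ x, ∃ (a : ℕ → ℤ) (K₀ : ℕ), (∀ i, S.P i x = a i • S.u i) ∧
      ∀ K, K₀ ≤ K → s x = ∑ i ∈ range K, a i • w i := by
  have hT := fun i => S.exists_T i (w i) (by
    by_cases h : S.n i = 0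
    · rw [hw i h, smul_zero]
    · obtain ⟨k, hk⟩ := Nat.exists_eq_succ_of_ne_zero h
      rw [hk, pow_succ, mul_smul, hpW, smul_zero])
  choose T hT using hT
  have hfin : ∀ x, ∃ K, ∀ i, K ≤ i → T i x = 0 := by
    intro x
    obtain ⟨L, z, h⟩ := S.tail1 x
    refine ⟨L, fun i hi => ?_⟩
    obtain ⟨a, ha⟩ := S.cyc i z
    have h2 := h i hi
    rw [ha, ← natCast_zsmul, ← mul_smul] at h2
    rw [hT i x _ h2, mul_comm, mul_smul, natCast_zsmul, hpW, smul_zero]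
  obtain ⟨s, hs⟩ := exists_op T hfin
  refine ⟨s, fun x => ?_⟩
  choose a ha using fun i => S.cyc i x
  obtain ⟨K₀, hK₀⟩ := hfin x
  refine ⟨a, K₀, ha, fun K hK => ?_⟩
  rw [hs x K (fun i hi => hK₀ i (le_trans hK hi))]
  exact sum_congr rfl fun i _ => hT i x _ (ha i)

end

/-- the family -/
theorem family {F B W : Type} [AddCommGroup F] [AddCommGroup B] [AddCommGroup W] {p : ℕ}
    (hp : p.Prime) (htf : ∀ n : ℕ, n ≠ 0 → ∀ x : F, n • x = 0 → x = 0) (q : B →+ W)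
    (hq : Function.Surjective q) (hker : ∀ b, q b = 0 ↔ ∃ b', b = p • b') (h1 : H1 B p)
    (hW : ∃ s : ℕ → B, ∀ x, ∃ (n : ℕ) (y : B), x = s n + p • y)
    (hy : ∃ y : ℕ → B, ∀ x, ∃ (j k : ℕ), k ≠ 0 ∧ k • (x - y j) = 0) (φ : F →+ W)
    (hφ : ¬ ∃ g : F →+ B, ∀ x, q (g x) = φ x) :
    ∃ Φ : (ℕ → Bool) → (F →+ W), ∀ ε ε', ε ≠ ε' →
      ¬ ∃ g : F →+ B, ∀ x, q (g x) = Φ ε x - Φ ε' x := by
  classical
  obtain ⟨s₀, hs₀⟩ := hW
  obtain ⟨y, hy⟩ := hy
  obtain ⟨S⟩ := exists_sys hp h1 s₀ hs₀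
  have hqp : ∀ b, q (p • b) = 0 := fun b => (hker _).2 ⟨b, rfl⟩
  have hpW : ∀ w : W, p • w = 0 := by
    intro w
    obtain ⟨b, rfl⟩ := hq w
    rw [← map_nsmul, hqp]
  -- the orders are unbounded
  have hun : ∀ N, ∃ i, N < S.n i := by
    intro N
    by_contra hcon
    push Not at hcon
    apply hφ
    obtain ⟨g, hg⟩ := bounded_lift htf q (p ^ N) (pow_ne_zero _ hp.ne_zero) φ (by
      intro x
      obtain ⟨b, hb⟩ := hq (φ x)
      obtain ⟨M, z, hM⟩ := S.gen b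
      refine ⟨∑ i ∈ range M, S.P i b, ?_, ?_⟩
      · rw [smul_sum]
        apply sum_eq_zero
        intro i _
        obtain ⟨a, ha⟩ := S.cyc i b
        obtain ⟨d, hd⟩ := Nat.exists_eq_add_of_le (hcon i)
        rw [ha, smul_comm, hd, add_comm, pow_add, mul_smul, S.tor, smul_zero, smul_zero]
      · rw [← hb]
        conv_rhs => rw [hM]
        rw [map_add, hqp, add_zero])
    exact ⟨g, fun x => (hg x).1⟩
  choose L hL using fun (j K : ℕ) => S.tail K (y j)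
  obtain ⟨ρ, hρ, hρ'⟩ := exists_rho S.n hun (fun M => ∑ i ∈ range (M + 1), (S.n i + i))
    (fun M => ∑ i ∈ range (M + 1), ∑ j ∈ range (i + 1), L j (S.n i))
  let σ : (ℕ → Bool) → ℕ → ℕ := fun ε i => ρ (tau ε i)
  have hσ1 : ∀ ε, Function.Injective (σ ε) := fun ε i i' h => (tau_inj (hρ.injective h)).1
  have hσ2 : ∀ ε i, S.n i + i ≤ S.n (σ ε i) := by
    intro ε i
    refine le_trans ?_ (hρ' (tau ε i)).1
    exact single_le_sum (f := fun i => S.n i + i) (fun _ _ => Nat.zero_le _)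
      (mem_range.2 (Nat.lt_succ_of_le (le_tau ε i)))
  have hσ3 : ∀ ε i, ∀ j ≤ i, L j (S.n i) ≤ σ ε i := by
    intro ε i j hj
    refine le_trans ?_ (hρ' (tau ε i)).2
    refine le_trans ?_ (single_le_sum (f := fun i => ∑ j ∈ range (i + 1), L j (S.n i))
      (fun _ _ => Nat.zero_le _) (mem_range.2 (Nat.lt_succ_of_le (le_tau ε i))))
    exact single_le_sum (f := fun j => L j (S.n i)) (fun _ _ => Nat.zero_le _)
      (mem_range.2 (Nat.lt_succ_of_le hj))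
  have hc := fun ε => S.exists_c hp y hy L hL (σ ε) (hσ1 ε) (hσ2 ε) (hσ3 ε)
  choose c hc1 hc2 using hc
  let v : (ℕ → Bool) → ℕ → B := fun ε i => if S.n i = 0 then 0 else S.u (σ ε i)
  have hs := fun ε => S.exists_s hpW (fun i => q (v ε i)) (by
    intro i hi
    show q (if S.n i = 0 then 0 else S.u (σ ε i)) = 0
    rw [if_pos hi, map_zero])
  choose s hs using hs
  have hsp : ∀ ε b, s ε (p • b) = 0 := fun ε b => by rw [map_nsmul, hpW]
  -- factor through `W`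
  have hfac : ∀ {M : Type} [AddCommGroup M] (θ : B →+ M), (∀ b, θ (p • b) = 0) →
      ∃ Θ : W →+ M, ∀ b, Θ (q b) = θ b := by
    intro M _ θ hθ
    refine ⟨AddMonoidHom.liftOfSurjective q hq ⟨θ, ?_⟩, fun b => ?_⟩
    · intro b hb
      obtain ⟨b', rfl⟩ := (hker b).1 hb
      exact hθ b'
    · exact AddMonoidHom.liftOfRightInverse_comp_apply q _ _ ⟨θ, _⟩ b
  choose Str hStr using fun ε => hfac (s ε) (hsp ε)
  choose Γ hΓ using fun ε => hfac (q.comp (c ε)) (fun b => by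
    show q (c ε (p • b)) = 0
    rw [map_nsmul, hqp])
  have hΓ' : ∀ ε b, Γ ε (q b) = q (c ε b) := fun ε b => hΓ ε b
  -- compression after stretching
  have key : ∀ ε ε' x, ∃ (a : ℕ → ℤ) (K₀ : ℕ), (∀ i, S.P i x = a i • S.u i) ∧
      ∀ K, K₀ ≤ K → Γ ε (Str ε' (q x)) = q (∑ i ∈ range K, a i • c ε (v ε' i)) := by
    intro ε ε' x
    obtain ⟨a, K₀, ha, hK₀⟩ := hs ε' x
    refine ⟨a, K₀, ha, fun K hK => ?_⟩
    rw [hStr, hK₀ K hK, map_sum, map_sum]
    refine sum_congr rfl fun i _ => ?_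
    rw [map_zsmul, hΓ', map_zsmul]
  have hid : ∀ ε x, Γ ε (Str ε (q x)) = q x := by
    intro ε x
    obtain ⟨a, K₀, ha, hK₀⟩ := key ε ε x
    obtain ⟨N, hN⟩ := S.gen' x
    obtain ⟨z, hz⟩ := hN (max K₀ N) (le_max_right _ _)
    rw [hK₀ _ (le_max_left K₀ N)]
    conv_rhs => rw [hz]
    rw [map_add, hqp, add_zero]
    congr 1
    refine sum_congr rfl fun i _ => ?_
    rw [ha]
    congr 1
    show c ε (if S.n i = 0 then 0 else S.u (σ ε i)) = S.u i
    split_ifs with h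
    · rw [map_zero]
      have := S.tor i
      rw [h, pow_zero, one_smul] at this
      exact this.symm
    · exact hc1 ε i
  have hoff : ∀ ε ε', ε ≠ ε' → ∃ N, ∀ w, ∃ m : B, p ^ N • m = 0 ∧ q m = Γ ε (Str ε' w) := by
    intro ε ε' hne
    obtain ⟨K₁, hK₁⟩ := tau_ad hne
    have hz : ∀ i, K₁ ≤ i → c ε (v ε' i) = 0 := by
      intro i hi
      show c ε (if S.n i = 0 then 0 else S.u (σ ε' i)) = 0
      split_ifs with h
      · exact map_zero _
      · refine hc2 ε _ fun k hk => ?_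
        exact hK₁ i hi k (hρ.injective hk).symm
    have ht : ∀ i, ∃ e : ℕ, p ^ e • c ε (v ε' i) = 0 := by
      intro i
      by_cases h : S.n i = 0
      · refine ⟨0, ?_⟩
        show p ^ 0 • c ε (if S.n i = 0 then 0 else S.u (σ ε' i)) = 0
        rw [if_pos h, map_zero, smul_zero]
      · refine ⟨S.n (σ ε' i), ?_⟩
        show p ^ _ • c ε (if S.n i = 0 then 0 else S.u (σ ε' i)) = 0
        rw [if_neg h, ← map_nsmul, S.tor, map_zero]
    choose e he using ht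
    refine ⟨∑ i ∈ range K₁, e i, fun w => ?_⟩
    obtain ⟨x, rfl⟩ := hq w
    obtain ⟨a, K₀, ha, hK₀⟩ := key ε ε' x
    refine ⟨∑ i ∈ range K₁, a i • c ε (v ε' i), ?_, ?_⟩
    · rw [smul_sum]
      apply sum_eq_zero
      intro i hi
      have h5 : e i ≤ ∑ i ∈ range K₁, e i := single_le_sum (fun _ _ => Nat.zero_le _) hi
      obtain ⟨d, hd⟩ := Nat.exists_eq_add_of_le h5
      rw [hd, smul_comm, add_comm, pow_add, mul_smul, he, smul_zero, smul_zero]
    · rw [hK₀ (max K₀ K₁) (le_max_left _ _)]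
      congr 1
      exact (sum_range_stable _ (le_max_right K₀ K₁) (fun i hi => by
        rw [hz i hi, smul_zero])).symm
  refine ⟨fun ε => (Str ε).comp φ, fun ε ε' hne => ?_⟩
  rintro ⟨g, hg⟩
  apply hφ
  obtain ⟨N, hN⟩ := hoff ε ε' hne
  obtain ⟨g', hg'⟩ := bounded_lift htf q (p ^ N) (pow_ne_zero _ hp.ne_zero)
    ((Γ ε).comp ((Str ε').comp φ)) (fun x => hN (φ x))
  refine ⟨(c ε).comp g + g', fun x => ?_⟩
  show q (c ε (g x) + g' x) = φ x
  have h6 : q (g x) = Str ε (φ x) - Str ε' (φ x) := hg x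
  have h7 : q (g' x) = Γ ε (Str ε' (φ x)) := (hg' x).1
  obtain ⟨b, hb⟩ := hq (φ x)
  rw [map_add, ← hΓ', h6, h7, map_sub, sub_add_cancel, ← hb, hid]

end Pool.Agent.ExtCmp
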