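import Pool.Agent.ExtCnt.Defs

/-! Presentations of `Ext(A,B)` that keep the torsion-free rank of `B` countable. -/

set_option autoImplicit false

namespace Pool.Agent.ExtCmp

open Cardinal Pool.Agent.ExtSum Pool.Agent.ExtCnt

/-- (as `Pool.Agent.ExtSum.split_reduced`, with the surjection onto the reduced part) -/
theorem split_reduced_surj {ι B : Type} [AddCommGroup B] (R : AddSubgroup (ι →₀ ℤ)) :
    ∃ (B' : Type) (_ : AddCommGroup B') (r : B →+ B'), Function.Surjective r ∧ Red B' ∧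
      Nonempty (((↥R →+ B) ⧸ (AddMonoidHom.compHom' (P := B) R.subtype).range) ≃+
        ((↥R →+ B') ⧸ (AddMonoidHom.compHom' (P := B') R.subtype).range)) := by
  obtain ⟨D₀, hD₀, hmax⟩ := Pres_div B
  have hdvb : Dvb D₀ := by
    intro n hn x
    obtain ⟨y, hy, hxy⟩ := hD₀ n hn x x.2
    exact ⟨⟨y, hy⟩, Subtype.ext hxy⟩
  let mk : B →+ (B ⧸ D₀) := QuotientAddGroup.mk' D₀
  have hmk : ∀ x, mk x = 0 ↔ x ∈ D₀ := fun x => QuotientAddGroup.eq_zero_iff x
  have hred : Red (B ⧸ D₀) := by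
    intro S' hS'
    have h1 : S'.comap mk ≤ D₀ := by
      refine hmax _ ?_
      intro n hn x hx
      obtain ⟨y', hy', hxy⟩ := hS' n hn (mk x) hx
      obtain ⟨y, rfl⟩ := QuotientAddGroup.mk'_surjective D₀ y'
      have h2 : x - n • y ∈ D₀ := by
        rw [← hmk, map_sub, map_nsmul]
        exact sub_eq_zero.2 hxy.symm
      obtain ⟨d, hd, hd'⟩ := hD₀ n hn _ h2
      refine ⟨y + d, ?_, ?_⟩
      · show mk (y + d) ∈ S'
        rw [map_add, (hmk d).2 hd, add_zero]
        exact hy'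
      · rw [nsmul_add, hd']
        abel
    rw [eq_bot_iff]
    intro x hx
    obtain ⟨y, rfl⟩ := QuotientAddGroup.mk'_surjective D₀ x
    rw [AddSubgroup.mem_bot]
    exact (hmk y).2 (h1 hx)
  -- a retraction and a section
  obtain ⟨r, hr⟩ := fact hdvb D₀.subtype (AddMonoidHom.id D₀) (by
    intro a ha
    exact Subtype.ext ha)
  have hr' : ∀ d ∈ D₀, ((r d : D₀) : B) = d := fun d hd => congrArg Subtype.val (hr ⟨d, hd⟩)
  let s : (B ⧸ D₀) →+ B := QuotientAddGroup.lift D₀ (AddMonoidHom.id B - D₀.subtype.comp r) (by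
    intro d hd
    show d - ((r d : D₀) : B) = 0
    rw [hr' d hd, sub_self])
  have hs : ∀ x : B, s (mk x) = x - ((r x : D₀) : B) := fun x => rfl
  have hms : ∀ y, mk (s y) = y := by
    intro y
    obtain ⟨x, rfl⟩ := QuotientAddGroup.mk'_surjective D₀ y
    show mk (s (mk x)) = mk x
    rw [hs, map_sub, (hmk _).2 (r x).2, sub_zero]
  refine ⟨B ⧸ D₀, inferInstance, mk, QuotientAddGroup.mk'_surjective D₀, hred, ?_⟩
  let S := (AddMonoidHom.compHom' (P := B) R.subtype).range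
  let S' := (AddMonoidHom.compHom' (P := B ⧸ D₀) R.subtype).range
  let Φ : (↥R →+ B) →+ ((↥R →+ (B ⧸ D₀)) ⧸ S') :=
    (QuotientAddGroup.mk' S').comp (AddMonoidHom.compHom mk)
  have hΦ : ∀ φ : ↥R →+ B, Φ φ = QuotientAddGroup.mk' S' (mk.comp φ) := fun φ => rfl
  have hsurj : Function.Surjective Φ := by
    intro y
    obtain ⟨ψ, rfl⟩ := QuotientAddGroup.mk'_surjective S' y
    refine ⟨s.comp ψ, ?_⟩
    rw [hΦ]
    congr 1
    ext x
    exact hms _
  have hker : Φ.ker = S := by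
    ext φ
    rw [AddMonoidHom.mem_ker, hΦ]
    have h0 : QuotientAddGroup.mk' S' (mk.comp φ) = 0 ↔ mk.comp φ ∈ S' :=
      QuotientAddGroup.eq_zero_iff _
    rw [h0]
    constructor
    · rintro ⟨ψ, hψ⟩
      have hψ' : ∀ x : R, ψ (x : ι →₀ ℤ) = mk (φ x) := fun x => DFunLike.congr_fun hψ x
      -- the difference with values in `D₀`
      have hδ : ∀ x : R, φ x - s (ψ (x : ι →₀ ℤ)) ∈ D₀ := by
        intro x
        rw [← hmk, map_sub, hms, hψ', sub_self]
      let δ : ↥R →+ D₀ := AddMonoidHom.mk' (fun x => ⟨φ x - s (ψ (x : ι →₀ ℤ)), hδ x⟩) (by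
        intro a b
        apply Subtype.ext
        show φ (a + b) - s (ψ ((a : ι →₀ ℤ) + b)) = (φ a - s (ψ a)) + (φ b - s (ψ b))
        rw [map_add, map_add, map_add]
        abel)
      obtain ⟨δ', hδ'⟩ := fact hdvb R.subtype δ (by
        intro a ha
        have ha' : a = 0 := Subtype.ext ha
        rw [ha', map_zero])
      refine ⟨s.comp ψ + D₀.subtype.comp δ', ?_⟩
      ext x
      show s (ψ (x : ι →₀ ℤ)) + ((δ' (x : ι →₀ ℤ) : D₀) : B) = φ x
      have h1 : δ' (x : ι →₀ ℤ) = δ x := hδ' x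
      rw [h1]
      show s (ψ (x : ι →₀ ℤ)) + (φ x - s (ψ (x : ι →₀ ℤ))) = φ x
      abel
    · rintro ⟨ψ, rfl⟩
      exact ⟨mk.comp ψ, rfl⟩
  exact ⟨(QuotientAddGroup.quotientAddEquivOfEq hker.symm).trans
    (QuotientAddGroup.quotientKerEquivOfSurjective Φ hsurj)⟩

variable {G A B : Type} [AddCommGroup G] [AddCommGroup A] [AddCommGroup B]

/-- `Ext(A,B)` through a divisible group containing the reduced part of `B`; if `B` modulo torsion
is countable then so is its reduced part. -/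
theorem ext_pres2 (h : IsExtOf G A B) (hc : Countable (B ⧸ AddCommGroup.torsion B)) :
    ∃ (D C : Type) (_ : AddCommGroup D) (_ : AddCommGroup C) (π : D →+ C),
      Function.Surjective π ∧ Dvb D ∧ Dvb C ∧ Red π.ker ∧
      (∃ y : ℕ → π.ker, ∀ x, ∃ (j k : ℕ), k ≠ 0 ∧ k • (x - y j) = 0) ∧
      Nonempty (G ≃+ ((A →+ C) ⧸ Lft π (⊤ : AddSubgroup A))) := by
  obtain ⟨ι, q, hq, ⟨e⟩⟩ := extOf_equiv h
  obtain ⟨B', _, r, hr, hB, ⟨e₁⟩⟩ := split_reduced_surj (B := B) q.ker
  obtain ⟨D, _, i, hi, hD, -⟩ := hull B'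
  obtain ⟨e₂⟩ := ext_iso₀ q hq i hi hD
  have hker : i.range = (QuotientAddGroup.mk' i.range).ker :=
    (QuotientAddGroup.ker_mk' i.range).symm
  have hmem : ∀ b, i b ∈ (QuotientAddGroup.mk' i.range).ker := fun b => hker ▸ ⟨b, rfl⟩
  let k : B' →+ (QuotientAddGroup.mk' i.range).ker :=
    i.codRestrict (QuotientAddGroup.mk' i.range).ker hmem
  have hk : ∀ z : (QuotientAddGroup.mk' i.range).ker, ∃ b, k b = z := by
    rintro ⟨z, hz⟩
    have hz' : z ∈ i.range := by rw [hker]; exact hz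
    obtain ⟨b, hb⟩ := hz'
    exact ⟨b, Subtype.ext hb⟩
  have hkinj : Function.Injective k := by
    intro a b hab
    exact hi (congrArg Subtype.val hab)
  refine ⟨D, D ⧸ i.range, inferInstance, inferInstance, QuotientAddGroup.mk' i.range,
    QuotientAddGroup.mk'_surjective _, hD, ?_, ?_, ?_, ⟨(e.trans e₁).trans e₂⟩⟩
  · intro n hn x
    obtain ⟨d, rfl⟩ := QuotientAddGroup.mk'_surjective _ x
    obtain ⟨y, rfl⟩ := hD n hn d
    exact ⟨_, (map_nsmul (QuotientAddGroup.mk' i.range) n y).symm⟩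
  · intro S hS
    have h1 := hB (S.comap k) (by
      intro n hn x hx
      obtain ⟨y, hy, hxy⟩ := hS n hn (k x) hx
      obtain ⟨b, rfl⟩ := hk y
      refine ⟨b, hy, hkinj ?_⟩
      rw [map_nsmul]
      exact hxy)
    rw [eq_bot_iff]
    intro z hz
    obtain ⟨b, rfl⟩ := hk z
    have h2 : b ∈ S.comap k := hz
    rw [h1, AddSubgroup.mem_bot] at h2
    rw [AddSubgroup.mem_bot, h2, map_zero]
  · obtain ⟨c, hcs⟩ := exists_surjective_nat (B ⧸ AddCommGroup.torsion B)
    choose b hb using fun j => QuotientAddGroup.mk'_surjective (AddCommGroup.torsion B) (c j)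
    refine ⟨fun j => k (r (b j)), fun x => ?_⟩
    obtain ⟨b', rfl⟩ := hk x
    obtain ⟨b₀, rfl⟩ := hr b'
    obtain ⟨j, hj⟩ := hcs (QuotientAddGroup.mk' (AddCommGroup.torsion B) b₀)
    have h1 : b₀ - b j ∈ AddCommGroup.torsion B := by
      rw [← QuotientAddGroup.eq_zero_iff (N := AddCommGroup.torsion B)]
      show QuotientAddGroup.mk' (AddCommGroup.torsion B) (b₀ - b j) = 0
      rw [map_sub, hb, hj, sub_self]
    have h2 : IsOfFinAddOrder (b₀ - b j) := h1
    rw [isOfFinAddOrder_iff_nsmul_eq_zero] at h2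
    obtain ⟨n, hn, hn0⟩ := h2
    refine ⟨j, n, hn.ne', ?_⟩
    rw [← map_sub, ← map_sub, ← map_nsmul, ← map_nsmul, hn0, map_zero, map_zero]

end Pool.Agent.ExtCmp
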