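import Pool.Agent.ExtCmp.Main2
import Pool.Agent.ExtCmp.Facts
import Pool.Agent.ExtCmp.Pres2
import Pool.Agent.ExtCnt.Fin

/-! `V ⊕ Ext(ℤ(p^∞), ⊕ ℤ/pⁿ)`, `V` divisible with countably many, but at least one, elements of
order `p`, is not `Ext(C,D)` with `D/tD` countable. -/

set_option autoImplicit false

namespace Pool.Agent.ExtCmp

open Cardinal Pool.Agent.ExtSum Pool.Agent.ExtCnt

theorem not_iso_rank (p : ℕ) (hp : p.Prime) (V G A B : Type) [AddCommGroup V] [AddCommGroup G]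
    [AddCommGroup A] [AddCommGroup B] (hG : IsExtOf G (Pruefer p) (Cyc p))
    (hdiv : ∀ n : ℕ, n ≠ 0 → ∀ x : V, ∃ y, n • y = x)
    (hcnt : {v : V | p • v = 0}.Countable) (hpos : ∃ v : V, v ≠ 0 ∧ p • v = 0)
    (h : IsExtOf (V × G) A B) : ¬ Countable (B ⧸ AddCommGroup.torsion B) := by
  intro hB
  obtain ⟨D, C, _, _, π, hπ, hD, hC, hred, hy, ⟨e⟩⟩ := ext_pres2 h hB
  obtain ⟨v, hv0, hv⟩ := hpos
  obtain ⟨h1, ⟨s, h2⟩, h3⟩ := G2_facts p hp G hG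
  obtain ⟨h4, h5⟩ := G2_more p hp G (Cyc p) hG
  apply hv0
  have key := main_group2 hD hC hπ hred hy p hp e (by
    rintro ⟨x, y⟩
    obtain ⟨x', rfl⟩ := hdiv p hp.ne_zero x
    obtain ⟨t, y', k, ht, rfl⟩ := h1 y
    refine ⟨(0, t), (x', y'), k, ?_, ?_⟩
    · exact Prod.ext (smul_zero (p ^ k) : p ^ k • (0 : V) = 0) ht
    · exact Prod.ext (zero_add (p • x')).symm rfl) ⟨fun n => (0, s n), by
    rintro ⟨x, y⟩
    obtain ⟨x', rfl⟩ := hdiv p hp.ne_zero x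
    obtain ⟨n, y', rfl⟩ := h2 y
    exact ⟨n, (x', y'), Prod.ext (zero_add (p • x')).symm rfl⟩⟩ (by
    intro N
    obtain ⟨x, hx⟩ := h3 N
    refine ⟨(0, x), ?_⟩
    rintro ⟨y, y'⟩ h
    exact hx y' (congrArg Prod.snd h)) (by
    rintro l hl hlp ⟨x, y⟩
    obtain ⟨x', rfl⟩ := hdiv l hl.ne_zero x
    obtain ⟨y', rfl⟩ := h5 l hl hlp y
    exact ⟨(x', y'), rfl⟩) (by
    intro X hX
    have h6 : X.map (AddMonoidHom.snd V G) = ⊥ := by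
      apply h4
      rintro n hn _ ⟨x, hx, rfl⟩
      obtain ⟨y, hy, rfl⟩ := hX n hn x hx
      exact ⟨y.2, ⟨y, hy, rfl⟩, rfl⟩
    apply (hcnt.image fun v : V => (v, (0 : G))).mono
    rintro ⟨x, y⟩ ⟨hx, hpx⟩
    have h7 : y ∈ X.map (AddMonoidHom.snd V G) := ⟨(x, y), hx, rfl⟩
    rw [h6, AddSubgroup.mem_bot] at h7
    exact ⟨x, congrArg Prod.fst hpx, Prod.ext rfl h7.symm⟩)
    (AddMonoidHom.inl V G).range (by
      rintro n hn _ ⟨x, rfl⟩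
      obtain ⟨y, rfl⟩ := hdiv n hn x
      exact ⟨_, ⟨y, rfl⟩, by rw [← map_nsmul]⟩) (v, 0) ⟨v, rfl⟩
      (Prod.ext hv (smul_zero p : p • (0 : G) = 0))
  exact congrArg Prod.fst key

end Pool.Agent.ExtCmp
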