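import Pool.Agent.ExtCmp.Kill

/-! If `B = ker π` has countable torsion-free rank, `G = Ext(A,B)` satisfies (P1), (P2), (P3), is
divisible by all primes `l ≠ p`, and the elements of order `p` of every divisible subgroup of `G`
form a countable set, then there are no such elements besides `0`; `A` is arbitrary. -/

set_option autoImplicit false

namespace Pool.Agent.ExtCmp

open Pool.Agent.ExtSum Pool.Agent.ExtCnt

section
variable {D C A : Type} [AddCommGroup D] [AddCommGroup C] [AddCommGroup A]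

/-- (as `Pool.Agent.ExtCnt.lift_pow`, with the lifting property as a hypothesis) -/
theorem lift_pow' {F : Type} [AddCommGroup F] (π : D →+ C) (hD : Dvb D) (p : ℕ)
    (hp : p.Prime)
    (HL : ∀ f : F →+ C, (∀ u, p • f u = 0) → ∃ h : F →+ D, ∀ u, π (h u) = f u)
    (htf : ∀ n : ℕ, n ≠ 0 → ∀ x : F, n • x = 0 → x = 0) (N : ℕ) :
    ∀ (f : F →+ C) (g : F →+ D), (∀ u, p ^ N • f u = π (g u)) →
      ∃ h : F →+ D, ∀ u, π (h u) = f u := by
  induction N with
  | zero =>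
    intro f g h
    exact ⟨g, fun u => by rw [← h u, pow_zero, one_smul]⟩
  | succ N ih =>
    intro f g h
    obtain ⟨h₀, hh₀'⟩ := div_hom hD htf p hp.ne_zero g
    obtain ⟨h₁, hh₁⟩ := HL (p ^ N • f - π.comp h₀) (by
      intro u
      show p • (p ^ N • f u - π (h₀ u)) = 0
      rw [smul_sub, ← mul_smul, ← pow_succ', h, ← map_nsmul, hh₀', sub_self])
    refine ih f (h₀ + h₁) fun u => ?_
    have h2 : π (h₁ u) = p ^ N • f u - π (h₀ u) := hh₁ u
    rw [AddMonoidHom.add_apply, map_add, h2]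
    abel

theorem quot_tf (n : ℕ) (hn : n ≠ 0) (x : A ⧸ AddCommGroup.torsion A) (hx : n • x = 0) :
    x = 0 := by
  obtain ⟨x, rfl⟩ := QuotientAddGroup.mk'_surjective (AddCommGroup.torsion A) x
  rw [← map_nsmul, QuotientAddGroup.mk'_apply, QuotientAddGroup.eq_zero_iff] at hx
  rw [QuotientAddGroup.mk'_apply, QuotientAddGroup.eq_zero_iff]
  exact TorsA_mem_torsion hn hx

/-- (as `Pool.Agent.ExtCnt.main_count`, with the lifting property as a hypothesis) -/
theorem main_count' {π : D →+ C} (hD : Dvb D) (hred : Red π.ker) (p : ℕ) (hp : p.Prime)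
    (HL : ∀ f : (A ⧸ AddCommGroup.torsion A) →+ C, (∀ u, p • f u = 0) →
      ∃ h : (A ⧸ AddCommGroup.torsion A) →+ D, ∀ u, π (h u) = f u)
    (N : ℕ) (hN2 : ∀ w : A, (∃ k : ℕ, p ^ k • w = 0) →
      ∃ w', (∃ k : ℕ, p ^ k • w' = 0) ∧ p ^ N • w = p ^ (N + 1) • w') (f : A →+ C)
    (hf : f ∈ Lft π (AddCommGroup.torsion A)) (g : A →+ D) (hfg : ∀ x, p • f x = π (g x)) :
    ∃ h : A →+ D, ∀ x, π (h x) = f x := by
  classical
  set T := AddCommGroup.torsion A with hT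
  have hTq : Tq A p ≤ T := Tq_le p hp
  obtain ⟨g₀, hg₀⟩ := hf
  let f₀ : A →+ C := f - π.comp g₀
  let g₁ : A →+ D := g - p • g₀
  have hf₀ : ∀ x, f₀ x = f x - π (g₀ x) := fun x => rfl
  have hg₁ : ∀ x, g₁ x = g x - p • g₀ x := fun x => rfl
  have hf₀T : ∀ t ∈ T, f₀ t = 0 := fun t ht => by rw [hf₀, hg₀ t ht, sub_self]
  have hfg₀ : ∀ x, p • f₀ x = π (g₁ x) := by
    intro x
    rw [hf₀, hg₁, smul_sub, hfg, map_sub, map_nsmul]
  have hg₁T : ∀ t ∈ T, g₁ t ∈ π.ker := by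
    intro t ht
    rw [AddMonoidHom.mem_ker, ← hfg₀, hf₀T t ht, smul_zero]
  have hg₁p : ∀ w ∈ Tp A p, g₁ (p ^ N • w) = 0 := kill_p hred hp hN2 g₁ hg₁T
  obtain ⟨k, hk⟩ := fact (A := ↥(Tq A p) × ↥(Tp A p)) (Y := A) hD
    (p • ((Tq A p).subtype.comp (AddMonoidHom.fst _ _)) +
      (Tp A p).subtype.comp (AddMonoidHom.snd _ _))
    (g₁.comp ((Tq A p).subtype.comp (AddMonoidHom.fst _ _))) (by
      rintro ⟨⟨t, m, hm, hmt⟩, ⟨s, j, hj⟩⟩ hts
      have hts : p • t + s = 0 := hts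
      show g₁ t = 0
      have hcop : m.Coprime (p ^ (j + 1)) := Nat.Coprime.pow_right _ hm
      have h4 : p ^ (j + 1) • t = 0 := by
        rw [pow_succ, mul_smul, eq_neg_of_add_eq_zero_left hts, smul_neg, hj, neg_zero]
      rw [eq_zero_of_coprime hcop hmt h4, map_zero])
  have hk1 : ∀ t ∈ Tq A p, ∀ s ∈ Tp A p, k (p • t + s) = g₁ t := fun t ht s hs =>
    hk (⟨t, ht⟩, ⟨s, hs⟩)
  let f₁ : A →+ C := f₀ - π.comp k
  let g₂ : A →+ D := p ^ N • (g₁ - p • k)
  have hf₁T : T ≤ f₁.ker := by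
    intro t ht
    rw [AddMonoidHom.mem_ker]
    show f₀ t - π (k t) = 0
    obtain ⟨t', ht', s, hs, rfl⟩ := decomp p hp t ht
    have h4 : π (g₁ t') = 0 := hg₁T t' (hTq ht')
    rw [hf₀T _ ht, hk1 t' ht' s hs, h4, sub_zero]
  have hg₂T : T ≤ g₂.ker := by
    intro t ht
    rw [AddMonoidHom.mem_ker]
    show p ^ N • (g₁ t - p • k t) = 0
    obtain ⟨t', ht', s, hs, rfl⟩ := decomp p hp t ht
    rw [hk1 t' ht' s hs, map_add, map_nsmul, add_sub_cancel_left, ← map_nsmul, hg₁p s hs]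
  let fb : A ⧸ T →+ C := QuotientAddGroup.lift T f₁ hf₁T
  let gb : A ⧸ T →+ D := QuotientAddGroup.lift T g₂ hg₂T
  obtain ⟨h, hh⟩ := lift_pow' (F := A ⧸ T) π hD p hp HL quot_tf (N + 1) fb gb (by
    intro u
    obtain ⟨x, rfl⟩ := QuotientAddGroup.mk'_surjective T u
    show p ^ (N + 1) • (f₀ x - π (k x)) = π (p ^ N • (g₁ x - p • k x))
    rw [map_nsmul, map_sub, map_nsmul, ← hfg₀, ← smul_sub, pow_succ, mul_smul])
  refine ⟨g₀ + k + h.comp (QuotientAddGroup.mk' T), fun x => ?_⟩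
  have h4 : π (h (QuotientAddGroup.mk' T x)) = f₀ x - π (k x) := hh _
  show π (g₀ x + k x + h (QuotientAddGroup.mk' T x)) = f x
  rw [map_add, map_add, h4, hf₀]
  abel

/-- `B/pB` is countable -/
theorem W_countable {π : D →+ C} (hD : Dvb D) (hC : Dvb C) {p : ℕ} (hp : p.Prime) {z : A}
    (hz0 : z ≠ 0) (hz : p • z = 0) (h2 : P2 π A p) :
    ∃ s : ℕ → π.ker, ∀ x, ∃ (n : ℕ) (y : π.ker), x = s n + p • y := by
  classical
  obtain ⟨s, hs⟩ := h2
  have h1 : ∀ b : π.ker, ∃ (e : D) (n : ℕ) (d : D), p • e = b ∧ p • d = 0 ∧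
      π e = s n z + π d := by
    rintro ⟨b, hb⟩
    obtain ⟨e, rfl⟩ := hD p hp.ne_zero b
    have hc : p • π e = 0 := by rw [← map_nsmul]; exact hb
    obtain ⟨f, hf⟩ := fact hC (zmultiplesHom A z) (zmultiplesHom C (π e)) (by
      intro n hn
      exact zsmul_of_dvd hc (dvd_of_zsmul hp hz0 hz hn))
    have hfz : f z = π e := by
      have := hf 1
      simpa using this
    obtain ⟨n, f', g, h⟩ := hs f
    have h3 := h z
    rw [hfz, ← map_nsmul, hz, map_zero, add_zero] at h3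
    exact ⟨e, n, g z, rfl, by rw [← map_nsmul, hz, map_zero], h3⟩
  choose e n d he hd hed using h1
  let r : ℕ → π.ker := fun m => if h : ∃ b, n b = m then h.choose else 0
  refine ⟨r, fun b => ⟨n b, ?_⟩⟩
  have hex : ∃ b', n b' = n b := ⟨b, rfl⟩
  have hr : r (n b) = hex.choose := dif_pos hex
  have hrn : n hex.choose = n b := hex.choose_spec
  set b' := hex.choose with hb'
  have hπ0 : e b - d b - (e b' - d b') ∈ π.ker := by
    rw [AddMonoidHom.mem_ker, map_sub, map_sub, map_sub, hed b, hed b', hrn]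
    abel
  refine ⟨⟨_, hπ0⟩, Subtype.ext ?_⟩
  show (b : D) = (r (n b) : D) + p • (e b - d b - (e b' - d b'))
  rw [hr, smul_sub, smul_sub, smul_sub, he, he, hd, hd]
  abel

theorem countable_pow {G : Type} [AddCommGroup G] (V : AddSubgroup G) (p : ℕ)
    (h : {x | x ∈ V ∧ p • x = 0}.Countable) (k : ℕ) : {x | x ∈ V ∧ p ^ k • x = 0}.Countable := by
  induction k with
  | zero =>
    apply (Set.countable_singleton (0 : G)).mono
    rintro x ⟨-, hx⟩
    rwa [pow_zero, one_smul] at hx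
  | succ k ih =>
    classical
    have h1 : ∀ y : G, {x | x ∈ V ∧ p • x = y}.Countable := by
      intro y
      by_cases hy : ∃ x₀, x₀ ∈ V ∧ p • x₀ = y
      · obtain ⟨x₀, hx₀, rfl⟩ := hy
        apply (h.image fun x => x₀ + x).mono
        rintro x ⟨hx, hpx⟩
        exact ⟨x - x₀, ⟨V.sub_mem hx hx₀, by rw [smul_sub, hpx, sub_self]⟩, by
          show x₀ + (x - x₀) = x
          abel⟩
      · apply (Set.countable_empty (α := G)).mono
        rintro x hx
        exact hy ⟨x, hx⟩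
    apply (ih.biUnion fun y _ => h1 y).mono
    rintro x ⟨hx, hpx⟩
    rw [Set.mem_iUnion₂]
    refine ⟨p • x, ⟨V.nsmul_mem hx p, ?_⟩, hx, rfl⟩
    rw [← mul_smul, ← pow_succ, hpx]

/-- The group-theoretic form. -/
theorem main_group2 {π : D →+ C} (hD : Dvb D) (hC : Dvb C) (hπ : Function.Surjective π)
    (hred : Red π.ker)
    (hy : ∃ y : ℕ → π.ker, ∀ x, ∃ (j k : ℕ), k ≠ 0 ∧ k • (x - y j) = 0) (p : ℕ) (hp : p.Prime)
    {G : Type} [AddCommGroup G] (e : G ≃+ ((A →+ C) ⧸ Lft π (⊤ : AddSubgroup A)))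
    (h1 : ∀ x : G, ∃ (t y : G) (k : ℕ), p ^ k • t = 0 ∧ x = t + p • y)
    (h2 : ∃ s : ℕ → G, ∀ x, ∃ (n : ℕ) (y : G), x = s n + p • y)
    (h3 : ∀ N : ℕ, ∃ x : G, ∀ y : G, p ^ N • x ≠ p ^ (N + 1) • y)
    (h4 : ∀ l : ℕ, l.Prime → l ≠ p → ∀ x : G, ∃ y, x = l • y)
    (h5 : ∀ V : AddSubgroup G, (∀ n : ℕ, n ≠ 0 → ∀ x ∈ V, ∃ y ∈ V, n • y = x) →
      {x | x ∈ V ∧ p • x = 0}.Countable)
    (V : AddSubgroup G) (hV : ∀ n : ℕ, n ≠ 0 → ∀ x ∈ V, ∃ y ∈ V, n • y = x) (v : G) (hv : v ∈ V)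
    (hpv : p • v = 0) : v = 0 := by
  classical
  let q : (A →+ C) →+ G := e.symm.toAddMonoidHom.comp
    (QuotientAddGroup.mk' (Lft π (⊤ : AddSubgroup A)))
  have hq : Function.Surjective q := e.symm.surjective.comp (QuotientAddGroup.mk'_surjective _)
  have hq0 : ∀ f : A →+ C, q f = 0 ↔ ∃ g : A →+ D, ∀ x, f x = π (g x) := by
    intro f
    have h4 : q f = 0 ↔ f ∈ Lft π (⊤ : AddSubgroup A) := by
      show e.symm (QuotientAddGroup.mk' (Lft π (⊤ : AddSubgroup A)) f) = 0 ↔ _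
      rw [AddEquiv.map_eq_zero_iff, QuotientAddGroup.mk'_apply, QuotientAddGroup.eq_zero_iff]
    rw [h4, mem_Lft]
    exact ⟨fun ⟨g, hg⟩ => ⟨g, fun x => (hg x trivial).symm⟩, fun ⟨g, hg⟩ => ⟨g, fun x _ =>
      (hg x).symm⟩⟩
  have hq1 : ∀ f f' : A →+ C, q f = q f' ↔ ∃ g : A →+ D, ∀ x, f x = f' x + π (g x) := by
    intro f f'
    rw [← sub_eq_zero, ← map_sub, hq0]
    constructor
    · rintro ⟨g, hg⟩
      exact ⟨g, fun x => by rw [← hg x, AddMonoidHom.sub_apply]; abel⟩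
    · rintro ⟨g, hg⟩
      exact ⟨g, fun x => by rw [AddMonoidHom.sub_apply, hg x]; abel⟩
  have H1 : P1 π A p := by
    intro f
    obtain ⟨t, y, k, htk, hx⟩ := h1 (q f)
    obtain ⟨τ, rfl⟩ := hq t
    obtain ⟨f', rfl⟩ := hq y
    rw [← map_nsmul, hq0] at htk
    obtain ⟨g, hg⟩ := htk
    rw [← map_nsmul, ← map_add, hq1] at hx
    obtain ⟨g'', hg''⟩ := hx
    exact ⟨τ, f', g'', g, k, hg, hg''⟩
  have H2 : P2 π A p := by
    obtain ⟨s, hs⟩ := h2
    choose s' hs' using fun n => hq (s n)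
    refine ⟨s', fun f => ?_⟩
    obtain ⟨n, y, hx⟩ := hs (q f)
    obtain ⟨f', rfl⟩ := hq y
    rw [← hs' n, ← map_nsmul, ← map_add, hq1] at hx
    obtain ⟨g, hg⟩ := hx
    exact ⟨n, f', g, hg⟩
  have H3 : P3 π A p := by
    intro N
    obtain ⟨x, hx⟩ := h3 N
    obtain ⟨f, rfl⟩ := hq x
    refine ⟨f, fun f' g hfg => ?_⟩
    apply hx (q f')
    rw [← map_nsmul, ← map_nsmul, hq1]
    exact ⟨g, hfg⟩
  have H4 : ∀ l : ℕ, l.Prime → l ≠ p → ∀ f : A →+ C, ∃ (f' : A →+ C) (g : A →+ D),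
      ∀ x, f x = l • f' x + π (g x) := by
    intro l hl hlp f
    obtain ⟨y, hx⟩ := h4 l hl hlp (q f)
    obtain ⟨f', rfl⟩ := hq y
    rw [← map_nsmul, hq1] at hx
    obtain ⟨g, hg⟩ := hx
    exact ⟨f', g, hg⟩
  -- steps 1 to 4
  have hfin := socle_finite hD hC hπ p hp H2 H3
  obtain ⟨N, hN1, hN2⟩ := exists_N p hfin
  obtain ⟨z, hz0, hz1, hz2⟩ := exists_z hD hC p hp N hN1 H3
  have S4 : ∀ c : C, p • c = 0 → ∃ (d : D) (k : ℕ), p ^ k • d = 0 ∧ π d = c :=
    fun c hc => S4_of hC p hp z hz0 hz1 hz2 H1 c hc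
  have hW := W_countable hD hC hp hz0 hz1 H2
  set T := AddCommGroup.torsion A with hT
  let mk : A →+ A ⧸ T := QuotientAddGroup.mk' T
  -- the lifting property
  have HL : ∀ f : (A ⧸ T) →+ C, (∀ u, p • f u = 0) → ∃ h : (A ⧸ T) →+ D, ∀ u, π (h u) = f u := by
    by_contra hno
    obtain ⟨f, hf1, hf2⟩ := fam hD hπ hp quot_tf S4 hW hy hno
    choose r hr using fun ε => div_hom hC quot_tf (p ^ N) (pow_ne_zero _ hp.ne_zero) (f ε)
    let Q : ((A ⧸ T) →+ C) →+ G := q.comp (AddMonoidHom.compHom' mk)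
    have hQ : ∀ f, Q f = q (f.comp mk) := fun f => rfl
    have hQd : ∀ n : ℕ, n ≠ 0 → ∀ x ∈ Q.range, ∃ y ∈ Q.range, n • y = x := by
      rintro n hn _ ⟨f, rfl⟩
      obtain ⟨f', hf'⟩ := div_hom hC quot_tf n hn f
      refine ⟨Q f', ⟨f', rfl⟩, ?_⟩
      rw [← map_nsmul]
      congr 1
      ext x
      exact hf' _
    have hcnt := countable_pow Q.range p (h5 _ hQd) (N + 1)
    have hmem : ∀ ε, Q (r ε) ∈ {x | x ∈ Q.range ∧ p ^ (N + 1) • x = 0} := by
      intro ε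
      refine ⟨⟨r ε, rfl⟩, ?_⟩
      rw [← map_nsmul]
      have h6 : p ^ (N + 1) • r ε = 0 := by
        ext x
        show p ^ (N + 1) • r ε (x : A ⧸ T) = 0
        rw [pow_succ', mul_smul, hr, hf1]
      rw [h6, map_zero]
    have hninj : ¬ Function.Injective (fun ε => Q (r ε)) := by
      intro hinj
      have h7 : (Set.univ : Set (ℕ → Bool)).Countable := by
        have h8 := hcnt.preimage_of_injOn (f := fun ε => Q (r ε)) (hinj.injOn)
        apply h8.mono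
        intro ε _
        exact hmem ε
      rw [Set.countable_univ_iff] at h7
      have h9 : ¬ Countable (ℕ → Bool) := by
        rintro ⟨F, hF⟩
        refine Function.cantor_injective (fun S : Set ℕ => F fun n => decide (n ∈ S)) ?_
        intro S S' hS
        ext n
        have h10 := congrFun (hF hS) n
        exact decide_eq_decide.1 h10
      exact h9 h7
    simp only [Function.Injective, not_forall] at hninj
    obtain ⟨ε, ε', heq, hne⟩ := hninj
    apply hf2 ε ε' hne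
    have heq' : q ((r ε).comp mk) = q ((r ε').comp mk) := heq
    rw [hq1] at heq'
    obtain ⟨g, hg⟩ := heq'
    have hg' : ∀ x, r ε (mk x) = r ε' (mk x) + π (g x) := hg
    have hgT : ∀ t ∈ T, g t ∈ π.ker := by
      intro t ht
      have h8 : mk t = 0 := (QuotientAddGroup.eq_zero_iff t).2 ht
      have h9 := hg' t
      rw [h8, map_zero, map_zero, zero_add] at h9
      exact h9.symm
    have hk : T ≤ (p ^ N • g).ker := by
      intro t ht
      rw [AddMonoidHom.mem_ker]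
      show p ^ N • g t = 0
      obtain ⟨t', ht', s, hs, rfl⟩ := decomp p hp t ht
      rw [map_add, map_nsmul, kill_q hD hC hred hp H4 g hgT t' ht', smul_zero, zero_add,
        ← map_nsmul]
      exact kill_p hred hp hN2 g hgT s hs
    refine ⟨QuotientAddGroup.lift T (p ^ N • g) hk, fun x => ?_⟩
    obtain ⟨a, rfl⟩ := QuotientAddGroup.mk'_surjective T x
    show π (p ^ N • g a) = f ε (mk a) - f ε' (mk a)
    rw [← hr, ← hr, hg' a, map_nsmul, smul_add]
    abel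
  obtain ⟨f, rfl⟩ := hq v
  have hfT : f ∈ Lft π (AddCommGroup.torsion A) := by
    let m : G →+ ((A →+ C) ⧸ Lft π (AddCommGroup.torsion A)) :=
      (QuotientAddGroup.map _ _ (AddMonoidHom.id _) (Lft_anti le_top)).comp e.toAddMonoidHom
    have hm : V.map m = ⊥ := by
      apply ext_torsion_reduced hD hC
      rintro n hn _ ⟨v, hv, rfl⟩
      obtain ⟨w, hw, hwv⟩ := hV n hn v hv
      exact ⟨m w, ⟨w, hw, rfl⟩, by rw [← map_nsmul, hwv]⟩
    have h4 : m (q f) ∈ V.map m := ⟨_, hv, rfl⟩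
    rw [hm, AddSubgroup.mem_bot] at h4
    have h5 : m (q f) = (f : (A →+ C) ⧸ Lft π (AddCommGroup.torsion A)) := by
      show QuotientAddGroup.map _ _ (AddMonoidHom.id _) (Lft_anti le_top)
        (e (e.symm (QuotientAddGroup.mk' (Lft π (⊤ : AddSubgroup A)) f))) = _
      rw [e.apply_symm_apply]
      rfl
    rw [h5] at h4
    exact (QuotientAddGroup.eq_zero_iff f).1 h4
  rw [← map_nsmul, hq0] at hpv
  obtain ⟨g, hg⟩ := hpv
  rw [hq0]
  obtain ⟨h, hh⟩ := main_count' hD hred p hp HL N hN2 f hfT g hg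
  exact ⟨h, fun x => (hh x).symm⟩

end

end Pool.Agent.ExtCmp
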