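import Pool.Agent.ExtCmp.Dual

/-! Operators attached to a dual system, locally finite sums, almost disjoint families. -/

set_option autoImplicit false

namespace Pool.Agent.ExtCmp

open Pool.Agent.ExtSum Pool.Agent.ExtCnt Finset

theorem sum_range_stable {M : Type} [AddCommGroup M] (a : ℕ → M) {K K' : ℕ} (hK : K ≤ K')
    (h : ∀ i, K ≤ i → a i = 0) : ∑ i ∈ range K', a i = ∑ i ∈ range K, a i := by
  symm
  apply sum_subset (range_mono hK)
  intro i _ hi
  rw [mem_range, not_lt] at hi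
  exact h i hi

/-- locally finite sums of homomorphisms -/
theorem exists_op {B M : Type} [AddCommGroup B] [AddCommGroup M] (T : ℕ → (B →+ M))
    (h : ∀ x, ∃ K, ∀ i, K ≤ i → T i x = 0) :
    ∃ Θ : B →+ M, ∀ x K, (∀ i, K ≤ i → T i x = 0) → Θ x = ∑ i ∈ range K, T i x := by
  choose K hK using h
  have key : ∀ x L, (∀ i, L ≤ i → T i x = 0) →
      ∑ i ∈ range (K x), T i x = ∑ i ∈ range L, T i x := by
    intro x L hL
    rcases le_total (K x) L with h | h
    · exact (sum_range_stable _ h (hK x)).symm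
    · exact sum_range_stable _ h hL
  refine ⟨AddMonoidHom.mk' (fun x => ∑ i ∈ range (K x), T i x) ?_, fun x L hL => key x L hL⟩
  intro x y
  have h1 : ∀ i, max (K x) (K y) ≤ i → T i x = 0 := fun i hi => hK x i (le_trans (le_max_left _ _) hi)
  have h2 : ∀ i, max (K x) (K y) ≤ i → T i y = 0 := fun i hi => hK y i (le_trans (le_max_right _ _) hi)
  show ∑ i ∈ range (K (x + y)), T i (x + y) = _
  rw [key (x + y) (max (K x) (K y)) (fun i hi => by rw [map_add, h1 i hi, h2 i hi, add_zero]),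
    key x _ h1, key y _ h2, ← sum_add_distrib]
  exact sum_congr rfl fun i _ => map_add _ _ _

section
variable {B : Type} [AddCommGroup B] {p : ℕ} (S : Sys B p)

/-- the homomorphism `⟨u i⟩ → M`, `u i ↦ m`, composed with the projection -/
theorem Sys.exists_T {M : Type} [AddCommGroup M] (i : ℕ) (m : M) (hm : p ^ S.n i • m = 0) :
    ∃ T : B →+ M, ∀ x (a : ℤ), S.P i x = a • S.u i → T x = a • m := by
  choose c hc using S.cyc i
  have key : ∀ (a b : ℤ), a • S.u i = b • S.u i → a • m = b • m := by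
    intro a b hab
    obtain ⟨d, hd⟩ := S.ord i (a - b) (by rw [sub_smul, hab, sub_self])
    rw [← sub_eq_zero, ← sub_smul, hd, mul_comm, mul_smul, natCast_zsmul, hm, smul_zero]
  refine ⟨AddMonoidHom.mk' (fun x => c x • m) ?_, fun x a ha => key _ _ (by rw [← hc, ha])⟩
  intro x y
  show c (x + y) • m = c x • m + c y • m
  rw [← add_smul]
  apply key
  rw [add_smul, ← hc, ← hc, ← hc, map_add]

theorem Sys.P_P {i j : ℕ} (h : i ≠ j) (x : B) : S.P i (S.P j x) = 0 := by
  obtain ⟨a, ha⟩ := S.cyc j x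
  rw [ha, map_zsmul, S.orth i j h, smul_zero]

theorem Sys.tail1 (x : B) : ∃ (L : ℕ) (z : B), ∀ i, L ≤ i → S.P i x = p • S.P i z := by
  obtain ⟨N, y, h⟩ := S.gen x
  refine ⟨N, y, fun i hi => ?_⟩
  conv_lhs => rw [h]
  rw [map_add, map_sum, map_nsmul, sum_eq_zero, zero_add]
  intro j hj
  rw [mem_range] at hj
  exact S.P_P (by omega) x

theorem Sys.tail (K : ℕ) (x : B) : ∃ (L : ℕ) (z : B), ∀ i, L ≤ i → S.P i x = p ^ K • S.P i z := by
  induction K with
  | zero => exact ⟨0, x, fun i _ => by rw [pow_zero, one_smul]⟩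
  | succ K ih =>
    obtain ⟨L, z, h⟩ := ih
    obtain ⟨L', z', h'⟩ := S.tail1 z
    refine ⟨max L L', z', fun i hi => ?_⟩
    rw [h i (le_trans (le_max_left _ _) hi), h' i (le_trans (le_max_right _ _) hi), ← mul_smul,
      ← pow_succ]

theorem Sys.gen' (x : B) : ∃ N, ∀ K, N ≤ K → ∃ y, x = ∑ i ∈ range K, S.P i x + p • y := by
  obtain ⟨N, y, h⟩ := S.gen x
  obtain ⟨L, z, h'⟩ := S.tail1 x
  refine ⟨max N L, fun K hK => ?_⟩
  induction K, hK using Nat.le_induction with
  | base =>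
    rcases le_total L N with h1 | h1
    · rw [max_eq_left h1]
      exact ⟨y, h⟩
    · rw [max_eq_right h1]
      obtain ⟨N', y', hy'⟩ := S.gen x
      have hz : ∀ K, N ≤ K → ∃ y, x = ∑ i ∈ range K, S.P i x + p • y := by
        intro K hK
        induction K, hK using Nat.le_induction with
        | base => exact ⟨y, h⟩
        | succ K hK ih =>
          obtain ⟨y₂, h₂⟩ := ih
          have h3 : S.P K x = p • S.P K y := by
            conv_lhs => rw [h]
            rw [map_add, map_sum, map_nsmul, sum_eq_zero, zero_add]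
            intro j hj
            rw [mem_range] at hj
            exact S.P_P (by omega) x
          refine ⟨y₂ - S.P K y, ?_⟩
          rw [sum_range_succ, h3, smul_sub]
          nth_rewrite 1 [h₂]
          abel
      exact hz L h1
  | succ K hK ih =>
    obtain ⟨y₂, h₂⟩ := ih
    refine ⟨y₂ - S.P K z, ?_⟩
    rw [sum_range_succ, h' K (le_trans (le_max_right _ _) hK), smul_sub]
    nth_rewrite 1 [h₂]
    abel

end

/-- fast growing sequences of indices -/
theorem exists_rho (n : ℕ → ℕ) (hun : ∀ N, ∃ i, N < n i) (A L : ℕ → ℕ) :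
    ∃ ρ : ℕ → ℕ, StrictMono ρ ∧ ∀ M, A M ≤ n (ρ M) ∧ L M ≤ ρ M := by
  have h1 : ∀ M r, ∃ m, r < m ∧ A M ≤ n m ∧ L M ≤ m := by
    intro M r
    obtain ⟨m, hm⟩ := hun (A M + ∑ j ∈ range (r + L M + 1), n j)
    refine ⟨m, ?_⟩
    have h2 : ¬ m < r + L M + 1 := by
      intro h
      have := single_le_sum (f := n) (fun _ _ => Nat.zero_le _) (mem_range.2 h)
      omega
    omega
  choose f hf1 hf2 hf3 using h1
  let ρ : ℕ → ℕ := fun M => Nat.rec (f 0 0) (fun M r => f (M + 1) r) M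
  refine ⟨ρ, strictMono_nat_of_lt_succ fun M => hf1 (M + 1) (ρ M), fun M => ?_⟩
  cases M with
  | zero => exact ⟨hf2 _ _, hf3 _ _⟩
  | succ M => exact ⟨hf2 _ _, hf3 _ _⟩

/-- an almost disjoint family of injections -/
def tau (ε : ℕ → Bool) (i : ℕ) : ℕ :=
  Nat.pair i (Encodable.encode (List.ofFn fun j : Fin i => ε j))

theorem le_tau (ε : ℕ → Bool) (i : ℕ) : i ≤ tau ε i := Nat.left_le_pair _ _

theorem tau_inj {ε ε' : ℕ → Bool} {i i' : ℕ} (h : tau ε i = tau ε' i') :
    i = i' ∧ ∀ j < i, ε j = ε' j := by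
  obtain ⟨rfl, h2⟩ := Nat.pair_eq_pair.1 h
  refine ⟨rfl, fun j hj => ?_⟩
  have h3 := List.ofFn_injective (Encodable.encode_injective h2)
  exact congrFun h3 ⟨j, hj⟩

theorem tau_ad {ε ε' : ℕ → Bool} (h : ε ≠ ε') : ∃ K, ∀ i, K ≤ i → ∀ i', tau ε' i ≠ tau ε i' := by
  obtain ⟨k, hk⟩ := Function.ne_iff.1 h
  refine ⟨k + 1, fun i hi i' hcon => ?_⟩
  exact hk ((tau_inj hcon).2 k (by omega)).symm

end Pool.Agent.ExtCmp
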