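import Pool.Agent.ExtCnt.Circ

/-! One step of the construction of a dual system: splitting off a cyclic `p`-group. -/

set_option autoImplicit false

namespace Pool.Agent.ExtCmp

open Pool.Agent.ExtSum Pool.Agent.ExtCnt

variable {B : Type} [AddCommGroup B]

/-- Every element is the sum of an element of `p`-power order and a multiple of `p`. -/
def H1 (B : Type) [AddCommGroup B] (p : ℕ) : Prop :=
  ∀ x : B, ∃ (t y : B) (k : ℕ), p ^ k • t = 0 ∧ x = t + p • y

/-- if `a` is not divisible by `p ^ n` and `a • u` is a multiple of `p ^ n` (and `p ^ n • u = 0`)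
then `p ^ (n - 1) • u` is a multiple of `p ^ n` -/
theorem pred_mul {p : ℕ} (hp : p.Prime) {n : ℕ} {u : B} (hu : p ^ n • u = 0) {a : ℤ} {s : B}
    (ha : ¬ ((p ^ n : ℕ) : ℤ) ∣ a) (hs : a • u = p ^ n • s) :
    ∃ s', p ^ (n - 1) • u = p ^ n • s' := by
  have ha0 : a ≠ 0 := by
    rintro rfl
    exact ha (dvd_zero _)
  have hfin : FiniteMultiplicity (p : ℤ) a := by
    rw [Int.finiteMultiplicity_iff]
    exact ⟨by rw [Int.natAbs_natCast]; exact hp.one_lt.ne', ha0⟩
  obtain ⟨m, hm1, hm2⟩ := hfin.exists_eq_pow_mul_and_not_dvd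
  set j := multiplicity (p : ℤ) a with hj
  have hjn : j < n := by
    by_contra h
    apply ha
    rw [hm1]
    push_cast
    exact (pow_dvd_pow _ (not_lt.1 h)).mul_right _
  have hcop : IsCoprime m ((p ^ n : ℕ) : ℤ) := by
    push_cast
    apply IsCoprime.pow_right
    exact ((Nat.prime_iff_prime_int.1 hp).irreducible.coprime_iff_not_dvd.2 hm2).symm
  obtain ⟨r, t, hrt⟩ := hcop
  have h1 : p ^ j • u = p ^ n • (r • s) := by
    have h2 : (r * m + t * ((p ^ n : ℕ) : ℤ)) • u = u := by rw [hrt, one_smul]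
    rw [add_smul, mul_smul t, natCast_zsmul, hu, smul_zero, add_zero] at h2
    calc p ^ j • u = p ^ j • ((r * m) • u) := by rw [h2]
      _ = r • (a • u) := by
        rw [hm1, mul_smul r m u, mul_smul _ m u, smul_comm (p ^ j) r]
        congr 1
        rw [← natCast_zsmul]
        push_cast
        rfl
      _ = p ^ n • (r • s) := by rw [hs, smul_comm]
  refine ⟨p ^ (n - 1 - j) • (r • s), ?_⟩
  have h3 : p ^ (n - 1) = p ^ (n - 1 - j) * p ^ j := by
    rw [← pow_add]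
    congr 1
    omega
  rw [h3, mul_smul, h1, smul_comm]

/-- One step. -/
theorem step {p : ℕ} (hp : p.Prime) (R : B →+ B) (hR : ∀ x, R (R x) = R x) (h1 : H1 B p)
    (x : B) : ∃ (u : B) (n : ℕ) (P : B →+ B), R u = u ∧ p ^ n • u = 0 ∧
      (∀ a : ℤ, a • u = 0 → ((p ^ n : ℕ) : ℤ) ∣ a) ∧ (∀ y, ∃ a : ℤ, P y = a • u) ∧
      (∀ y, P (R y) = P y) ∧ P u = u ∧ ∃ y, R x = P x + p • y := by
  classical
  by_cases hx : ∃ y, R x = p • y
  · obtain ⟨y, hy⟩ := hx
    refine ⟨0, 0, 0, map_zero R, smul_zero _, fun a _ => ?_, fun y => ⟨0, by simp⟩,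
      fun y => rfl, rfl, y, by rw [hy, AddMonoidHom.zero_apply, zero_add]⟩
    rw [pow_zero]
    exact one_dvd _
  have hex : ∃ n : ℕ, ∃ u, R u = u ∧ p ^ n • u = 0 ∧ ∃ y, R x = u + p • y := by
    obtain ⟨t, y, k, hk, hxt⟩ := h1 (R x)
    refine ⟨k, R t, hR t, by rw [← map_nsmul, hk, map_zero], R y, ?_⟩
    rw [← map_nsmul, ← map_add, ← hxt, hR]
  set n := Nat.find hex with hn
  obtain ⟨u, hRu, hu, y₀, hy₀⟩ := Nat.find_spec hex
  have hmin : ∀ m < n, ¬ ∃ u, R u = u ∧ p ^ m • u = 0 ∧ ∃ y, R x = u + p • y :=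
    fun m hm => Nat.find_min hex hm
  rw [← hn] at hu
  have hn0 : n ≠ 0 := by
    intro h0
    rw [h0, pow_zero, one_smul] at hu
    exact hx ⟨y₀, by rw [hy₀, hu, zero_add]⟩
  have hht : ∀ s, p ^ (n - 1) • u ≠ p ^ n • s := by
    intro s hs
    refine hmin (n - 1) (by omega) ⟨u - p • R s, ?_, ?_, y₀ + R s, ?_⟩
    · rw [map_sub, hRu, map_nsmul, hR]
    · have h2 : p ^ (n - 1) • u = p ^ n • R s := by
        rw [← hRu, ← map_nsmul, hs, map_nsmul]
      rw [smul_sub, h2, ← mul_smul, ← pow_succ, Nat.sub_add_cancel (Nat.pos_of_ne_zero hn0),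
        sub_self]
    · rw [hy₀, smul_add]
      abel
  have hpn : p ^ n ≠ 0 := pow_ne_zero _ hp.ne_zero
  have hord : ∀ (a : ℤ) (s : B), a • u = p ^ n • s → ((p ^ n : ℕ) : ℤ) ∣ a := by
    intro a s has
    by_contra hcon
    obtain ⟨s', hs'⟩ := pred_mul hp hu hcon has
    exact hht s' hs'
  -- the character
  obtain ⟨χ, hχ⟩ := fact (A := ℤ × B) (Y := B) dvb_QZ
    (((zmultiplesHom B u).comp (AddMonoidHom.fst ℤ B)) +
      ((p ^ n) • AddMonoidHom.snd ℤ B)) ((frac ((p ^ n : ℕ) : ℚ)).comp (AddMonoidHom.fst ℤ B)) (by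
      rintro ⟨a, b⟩ hab
      have hab : a • u + p ^ n • b = 0 := hab
      show frac ((p ^ n : ℕ) : ℚ) a = 0
      rw [frac_zero hpn]
      refine hord a (-b) ?_
      rw [smul_neg]
      exact eq_neg_of_add_eq_zero_left hab)
  have hχ' : ∀ (a : ℤ) (b : B), χ (a • u + p ^ n • b) = frac ((p ^ n : ℕ) : ℚ) a :=
    fun a b => hχ (a, b)
  have hχp : ∀ y, p ^ n • χ y = 0 := by
    intro y
    have := hχ' 0 y
    rw [zero_smul, zero_add, map_nsmul, map_zero] at this
    exact this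
  choose c hc using fun y => eq_frac hpn (hχp y)
  have hu' : ∀ a : ℤ, ((p ^ n : ℕ) : ℤ) ∣ a → a • u = 0 := by
    rintro _ ⟨b, rfl⟩
    rw [mul_comm, mul_smul, natCast_zsmul, hu, smul_zero]
  have hcu : ∀ y (a : ℤ), χ y = frac ((p ^ n : ℕ) : ℚ) a → c y • u = a • u := by
    intro y a hya
    rw [← sub_eq_zero, ← sub_smul]
    apply hu'
    rw [← frac_zero hpn, map_sub, ← hc, ← hya, sub_self]
  let P₀ : B →+ B := AddMonoidHom.mk' (fun y => c y • u) (by
    intro y z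
    show c (y + z) • u = c y • u + c z • u
    rw [← add_smul]
    apply hcu
    rw [map_add, map_add, ← hc, ← hc])
  have hP₀ : ∀ y, P₀ y = c y • u := fun y => rfl
  have hP₀u : P₀ u = u := by
    have h2 := hcu u 1 (by
      have := hχ' 1 0
      rwa [one_smul, smul_zero, add_zero] at this)
    rw [hP₀, h2, one_smul]
  refine ⟨u, n, P₀.comp R, hRu, hu, fun a ha => hord a 0 (by rw [ha, smul_zero]),
    fun y => ⟨c (R y), rfl⟩, fun y => ?_, ?_, y₀ - P₀ y₀, ?_⟩
  · show P₀ (R (R y)) = P₀ (R y)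
    rw [hR]
  · show P₀ (R u) = u
    rw [hRu, hP₀u]
  · show R x = P₀ (R x) + p • (y₀ - P₀ y₀)
    rw [hy₀, map_add, map_nsmul, hP₀u, smul_sub]
    abel

end Pool.Agent.ExtCmp
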